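import Pool.Agent.P.MP_c8d52e_an.AD.Loc

/-! The closed orbit of the field `(v ^ d, u ^ d)` and its symmetries. -/

set_option autoImplicit false

namespace Pool.Agent.P.MP_c8d52e_an.AD

open Complex ComplexConjugate Metric Set Filter Topology

lemma pow_lip {x y : ℂ} {M : ℝ} (hx : ‖x‖ ≤ M) (hy : ‖y‖ ≤ M) (n : ℕ) :
    ‖x ^ (n + 1) - y ^ (n + 1)‖ ≤ (n + 1) * M ^ n * ‖x - y‖ := by
  have hM : 0 ≤ M := (norm_nonneg _).trans hx
  induction n with
  | zero => simp
  | succ n ih =>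
    rw [show x ^ (n + 1 + 1) - y ^ (n + 1 + 1) =
      x * (x ^ (n + 1) - y ^ (n + 1)) + y ^ (n + 1) * (x - y) by ring]
    refine (norm_add_le _ _).trans ?_
    rw [norm_mul, norm_mul, norm_pow]
    have h1 : ‖x‖ * ‖x ^ (n + 1) - y ^ (n + 1)‖ ≤ M * ((n + 1) * M ^ n * ‖x - y‖) := by gcongr
    have h2 : ‖y‖ ^ (n + 1) * ‖x - y‖ ≤ M ^ (n + 1) * ‖x - y‖ := by gcongr
    refine (add_le_add h1 h2).trans_eq ?_
    push_cast
    ring

lemma mul_conj_one {a : ℂ} (h : ‖a‖ = 1) : a * conj a = 1 := by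
  rw [mul_conj, normSq_eq_norm_sq, h]; simp

/-- `P` solves the equation at `z` and is bounded there -/
def Sol (e : ℕ) (M : ℝ) (P : ℂ → ℂ × ℂ) (z : ℂ) : Prop :=
  HasDerivAt (fun w => (P w).1) ((P z).2 ^ (e + 1)) z ∧
    HasDerivAt (fun w => (P w).2) ((P z).1 ^ (e + 1)) z ∧ ‖(P z).1‖ ≤ M ∧ ‖(P z).2‖ ≤ M

lemma Sol.congr {e : ℕ} {M : ℝ} {P Q : ℂ → ℂ × ℂ} {z : ℂ} (h : Sol e M P z) (hq : Q =ᶠ[𝓝 z] P) :
    Sol e M Q z := by
  rw [Sol, hq.self_of_nhds]
  exact ⟨h.1.congr_of_eventuallyEq (hq.mono fun _ e => congrArg Prod.fst e),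
    h.2.1.congr_of_eventuallyEq (hq.mono fun _ e => congrArg Prod.snd e), h.2.2⟩

lemma sol_unique {e : ℕ} {M : ℝ} {P Q : ℂ → ℂ × ℂ} {z : ℂ} (h0 : P 0 = Q 0)
    (h : ∀ t ∈ Icc (0 : ℝ) 1, Sol e M P (t * z) ∧ Sol e M Q (t * z)) : P z = Q z := by
  have hd : ∀ t ∈ Icc (0 : ℝ) 1, HasDerivAt (fun t : ℝ => P (t * z) - Q (t * z))
      (((P (t * z)).2 ^ (e + 1) - (Q (t * z)).2 ^ (e + 1)) * z,
        ((P (t * z)).1 ^ (e + 1) - (Q (t * z)).1 ^ (e + 1)) * z) t := fun t ht => by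
    have h1 : HasDerivAt (fun w : ℂ => w * z) z t := by
      simpa using (hasDerivAt_id (t : ℂ)).mul_const z
    obtain ⟨⟨a1, a2, -⟩, b1, b2, -⟩ := h t ht
    exact (((a1.sub b1).comp (t : ℂ) h1).comp_ofReal).prodMk
      (((a2.sub b2).comp (t : ℂ) h1).comp_ofReal)
  have := eq_zero_of_abs_deriv_le_mul_abs_self_of_eq_zero_right (K := (e + 1) * M ^ e * ‖z‖)
    (fun t ht => (hd t ht).continuousAt.continuousWithinAt)
    (fun t ht => (hd t (Ico_subset_Icc_self ht)).hasDerivWithinAt) (by simp [h0])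
    (fun t ht => by
      obtain ⟨⟨-, -, a1, a2⟩, -, -, b1, b2⟩ := h t (Ico_subset_Icc_self ht)
      have hM : 0 ≤ M := (norm_nonneg _).trans a1
      have c1 := norm_fst_le (P (t * z) - Q (t * z))
      have c2 := norm_snd_le (P (t * z) - Q (t * z))
      refine norm_prod_le_iff.2 ⟨?_, ?_⟩
      · rw [norm_mul, mul_right_comm]
        exact mul_le_mul_of_nonneg_right ((pow_lip a2 b2 e).trans (by gcongr; exact c2))
          (norm_nonneg _)
      · rw [norm_mul, mul_right_comm]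
        exact mul_le_mul_of_nonneg_right ((pow_lip a1 b1 e).trans (by gcongr; exact c1))
          (norm_nonneg _)) 1 ⟨zero_le_one, le_rfl⟩
  simpa [sub_eq_zero] using this

/-- the glide reflection acting on curves -/
noncomputable def gl (a b : ℂ) (l : ℝ) (P : ℂ → ℂ × ℂ) (z : ℂ) : ℂ × ℂ :=
  (b * conj (P (conj z - l)).2, a * conj (P (conj z - l)).1)

lemma gl_sol {e : ℕ} {M l : ℝ} {a b z : ℂ} {P : ℂ → ℂ × ℂ} (ha : a ^ (e + 1) = b)
    (hb : b ^ (e + 1) = a) (na : ‖a‖ = 1) (nb : ‖b‖ = 1) (h : Sol e M P (conj z - l)) :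
    Sol e M (gl a b l P) z := by
  have key : ∀ {f : ℂ → ℂ} {f' : ℂ}, HasDerivAt f f' (conj z - l) →
      HasDerivAt (fun w => conj (f (conj w - l))) (conj f') z := fun {f f'} hf => by
    have h1 := (hf.comp_sub_const (conj z) l).conj_conj
    rwa [conj_conj] at h1
  refine ⟨((key h.2.1).const_mul b).congr_deriv ?_, ((key h.1).const_mul a).congr_deriv ?_, ?_, ?_⟩
  · simp only [gl, mul_pow, ha, map_pow]
  · simp only [gl, mul_pow, hb, map_pow]
  · simpa [gl, nb] using h.2.2.2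
  · simpa [gl, na] using h.2.2.1

lemma gl_gl {a b : ℂ} (l : ℝ) (na : ‖a‖ = 1) (nb : ‖b‖ = 1) (P : ℂ → ℂ × ℂ) :
    gl b a (-l) (gl a b l P) = P := by
  funext z
  ext
  · simp only [gl, map_mul, conj_conj, map_sub, conj_ofReal, ofReal_neg, sub_neg_eq_add,
      map_add, add_sub_cancel_right]
    rw [← mul_assoc, mul_conj_one na, one_mul]
  · simp only [gl, map_mul, conj_conj, map_sub, conj_ofReal, ofReal_neg, sub_neg_eq_add,
      map_add, add_sub_cancel_right]
    rw [← mul_assoc, mul_conj_one nb, one_mul]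

/-- a rectangle around `[k, k + 1]` -/
def Rect (η : ℝ) (k : ℤ) : Set ℂ := {z | k - η < z.re ∧ z.re < k + 1 + η ∧ |z.im| < η}

lemma extend {e : ℕ} {M η : ℝ} {a b : ℂ} {P₀ : ℂ → ℂ × ℂ} (h1 : 0 < η) (h2 : η ≤ 1 / 2)
    (ha : a ^ (e + 1) = b) (hb : b ^ (e + 1) = a) (na : ‖a‖ = 1) (nb : ‖b‖ = 1)
    (hs : ∀ z ∈ Rect η 0, Sol e M P₀ z)
    (hg : ∀ z ∈ Rect η 0, z ∈ Rect η 1 → P₀ z = gl a b 1 P₀ z) :
    ∃ P : ℂ → ℂ × ℂ, (∀ z : ℂ, |z.im| < η → Sol e M P z) ∧ (∀ z : ℂ, ¬ |z.im| < η → P z = 0) ∧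
      (∀ z ∈ Rect η 0, P z = P₀ z) ∧ P = gl a b 1 P := by
  let 𝒢 : Equiv.Perm (ℂ → ℂ × ℂ) := ⟨gl a b 1, gl b a (-1), gl_gl 1 na nb, fun P => by
    simpa using gl_gl (-1) nb na P⟩
  have up : ∀ k : ℤ, (𝒢 ^ (k + 1)) P₀ = gl a b 1 ((𝒢 ^ k) P₀) := fun k => by
    rw [add_comm, zpow_one_add]; rfl
  have dn : ∀ k : ℤ, (𝒢 ^ k) P₀ = gl b a (-1) ((𝒢 ^ (k + 1)) P₀) := fun k => by
    rw [up, gl_gl 1 na nb]
  have r1 : ∀ (k : ℤ) (z : ℂ), z ∈ Rect η (k + 1) → conj z - (1 : ℝ) ∈ Rect η k := by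
    rintro k z ⟨c1, c2, c3⟩
    push_cast at c1 c2
    refine ⟨?_, ?_, ?_⟩ <;> simp <;> linarith
  have r2 : ∀ (k : ℤ) (z : ℂ), z ∈ Rect η k → conj z - (-1 : ℝ) ∈ Rect η (k + 1) := by
    rintro k z ⟨c1, c2, c3⟩
    refine ⟨?_, ?_, ?_⟩ <;> simp <;> linarith
  have good : ∀ k : ℤ, (∀ z ∈ Rect η k, Sol e M ((𝒢 ^ k) P₀) z) ∧
      ∀ z ∈ Rect η k, z ∈ Rect η (k + 1) → (𝒢 ^ k) P₀ z = (𝒢 ^ (k + 1)) P₀ z := by
    intro k
    induction k using Int.induction_on with
    | zero => exact ⟨hs, fun z c1 c2 => hg z c1 (by simpa using c2)⟩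
    | succ k ih =>
      refine ⟨fun z hz => ?_, fun z c1 c2 => ?_⟩
      · rw [up]; exact gl_sol ha hb na nb (ih.1 _ (r1 _ z hz))
      · rw [up (k + 1), gl, ← ih.2 _ (r1 _ z c1) (r1 _ z c2), up]; rfl
    | pred k ih =>
      have e1 : -(k : ℤ) = -k - 1 + 1 := by ring
      rw [e1] at ih
      refine ⟨fun z hz => ?_, fun z c1 c2 => ?_⟩
      · rw [dn]; exact gl_sol hb ha nb na (ih.1 _ (r2 _ z hz))
      · rw [dn, dn (-k - 1 + 1), gl, ← dn (-k - 1 + 1), ih.2 _ (r2 _ z c1) (r2 _ z c2)]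
        rw [dn (-k - 1 + 1)]; rfl
  let P : ℂ → ℂ × ℂ := fun z => if |z.im| < η then (𝒢 ^ ⌊z.re⌋) P₀ z else 0
  have mem : ∀ z : ℂ, |z.im| < η → z ∈ Rect η ⌊z.re⌋ := fun z hz =>
    ⟨by linarith [Int.floor_le z.re], by linarith [Int.lt_floor_add_one z.re], hz⟩
  have eq : ∀ (k : ℤ), ∀ z ∈ Rect η k, P z = (𝒢 ^ k) P₀ z := by
    intro k z hz
    have hm := mem z hz.2.2
    simp only [P, if_pos hz.2.2]
    generalize ⌊z.re⌋ = j at hm
    have c1 : (j : ℝ) < k + 2 := by linarith [hm.1, hz.2.1]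
    have c2 : (k : ℝ) < j + 2 := by linarith [hz.1, hm.2.1]
    have c3 : j < k + 2 := by exact_mod_cast c1
    have c4 : k < j + 2 := by exact_mod_cast c2
    rcases (by omega : j = k ∨ j = k + 1 ∨ k = j + 1) with rfl | rfl | rfl
    · rfl
    · exact ((good k).2 z hz hm).symm
    · exact (good j).2 z hm hz
  have op : ∀ k : ℤ, IsOpen (Rect η k) := fun k =>
    (isOpen_lt continuous_const continuous_re).inter
      ((isOpen_lt continuous_re continuous_const).inter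
        (isOpen_lt continuous_im.abs continuous_const))
  refine ⟨P, fun z hz => ((good _).1 z (mem z hz)).congr ?_, fun z hz => if_neg hz,
    fun z hz => eq 0 z hz, funext fun z => ?_⟩
  · filter_upwards [(op _).mem_nhds (mem z hz)] with w hw using eq _ w hw
  · by_cases hz : |z.im| < η
    · have c1 : z ∈ Rect η (⌊z.re⌋ - 1 + 1) := by rw [sub_add_cancel]; exact mem z hz
      rw [eq _ z c1, up, gl, gl, eq _ _ (r1 _ z c1)]
    · have c1 : ¬ |(conj z - (1 : ℝ)).im| < η := by simpa using hz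
      simp only [P, gl, if_neg hz, if_neg c1]
      ext <;> simp

/-- A closed orbit with a reversing symmetry and a glide reflection. -/
structure Orb (e : ℕ) where
  u : ℂ → ℂ
  v : ℂ → ℂ
  a : ℂ
  b : ℂ
  k : ℂ
  M : ℝ
  η : ℝ
  hM : 1 ≤ M
  η0 : 0 < η
  η1 : η ≤ 1 / 2
  hd : ∀ z : ℂ, |z.im| < η →
    HasDerivAt u (v z ^ (e + 1)) z ∧ HasDerivAt v (u z ^ (e + 1)) z ∧ ‖u z‖ ≤ M ∧ ‖v z‖ ≤ M
  ha : a ^ (e + 1) = b
  hb : b ^ (e + 1) = a
  na : ‖a‖ = 1
  nb : ‖b‖ = 1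
  hk : k ^ (e + 2) = -1
  rev : ∀ z, v z = k * u (-z)
  glu : ∀ z, u (conj z + 1) = b * conj (v z)
  glv : ∀ z, v (conj z + 1) = a * conj (u z)
  h0 : u 0 ≠ 0
  re : (b * conj a).re ≤ 0
  ev : e = 2 → b * conj a = -1

lemma exists_angle (e : ℕ) : ∃ α : ℝ, |α| ≤ Real.pi / (2 * (e + 2)) ∧
    (exp (α * I) ^ (e + 2)) ^ 2 = (-1) ^ (e + 2) ∧ (e = 2 → α = 0) := by
  have hp : 0 ≤ Real.pi / (2 * (e + 2)) := by positivity
  rcases Nat.even_or_odd (e + 2) with h | h
  · exact ⟨0, by simpa using hp, by simp [h.neg_one_pow], fun _ => rfl⟩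
  · refine ⟨_, (abs_of_nonneg hp).le, ?_, by rintro rfl; exact absurd h (by decide)⟩
    have h1 : ((e : ℂ) + 2) ≠ 0 := by exact_mod_cast (by omega : e + 2 ≠ 0)
    rw [h.neg_one_pow, ← pow_mul, ← exp_nat_mul, ← exp_pi_mul_I]
    congr 1
    push_cast
    field_simp

theorem nonempty_orb {e : ℕ} (he : 1 ≤ e) : Nonempty (Orb e) := by
  obtain ⟨α, hα, hE, hα2⟩ := exists_angle e
  have nE : ‖exp (α * I)‖ = 1 := norm_exp_ofReal_mul_I α
  have hcos : 0 ≤ (exp (α * I) ^ 2).re := by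
    rw [← exp_nat_mul, show ((2 : ℕ) : ℂ) * (α * I) = (2 * α : ℝ) * I by push_cast; ring,
      exp_ofReal_mul_I_re]
    have h1 : Real.pi / (2 * (e + 2)) ≤ Real.pi / 4 := by
      have : (0 : ℝ) ≤ e := Nat.cast_nonneg e
      gcongr; linarith
    have h2 := abs_le.1 (hα.trans h1)
    exact Real.cos_nonneg_of_mem_Icc ⟨by linarith, by linarith⟩
  have hE1 : e = 2 → exp (α * I) = 1 := fun h => by rw [hα2 h]; simp
  obtain ⟨l, ρ, W, x, y, hl, hρ, hW, hseg, hx0, hy0, hxy⟩ :=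
    exists_loc e α (conj (exp (α * I) ^ (e + 2))) hα
      (by rw [mul_comm]; exact mul_conj_one (by rw [norm_pow, nE, one_pow]))
      (by
        have h1 := mul_conj_one (a := exp (α * I) ^ (e + 2)) (by rw [norm_pow, nE, one_pow])
        rw [conj_conj, ← hE]
        linear_combination (-exp (α * I) ^ (e + 2)) * h1)
  generalize exp (α * I) = E at *
  have iE := mul_conj_one nE
  set c := conj (E ^ (e + 2)) with hc
  have cE : c * E ^ (e + 2) = 1 := by
    rw [mul_comm]; exact mul_conj_one (by rw [norm_pow, nE, one_pow])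
  obtain ⟨B, hB⟩ := IsAlgClosed.exists_pow_nat_eq ((-1) ^ (e + 1) * c)
    (n := e * (e + 2)) (by positivity)
  have nB : ‖B‖ = 1 := by
    have := congrArg norm hB
    rw [norm_pow, norm_mul, norm_pow, norm_neg, norm_one, one_pow, one_mul, hc, norm_conj,
      norm_pow, nE, one_pow] at this
    exact (pow_eq_one_iff_of_nonneg (norm_nonneg _) (by positivity)).1 this
  obtain ⟨A, hA⟩ : ∃ A, A = -B ^ (e + 1) := ⟨_, rfl⟩
  have nA : ‖A‖ = 1 := by rw [hA, norm_neg, norm_pow, nB, one_pow]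
  have s2 : ((-1 : ℂ) ^ (e + 1)) * (-1) ^ (e + 1) = 1 := by rw [← mul_pow]; simp
  have hA2 : A ^ (e + 1) = c * B := by
    rw [hA, neg_pow, ← pow_mul, show (e + 1) * (e + 1) = e * (e + 2) + 1 by ring, pow_succ B, hB]
    linear_combination c * B * s2
  have hB2 : B ^ (e + 1) = -A := by rw [hA, neg_neg]
  have iA := mul_conj_one nA
  have iB := mul_conj_one nB
  have cA : conj A ^ (e + 1) = E ^ (e + 2) * conj B := by
    rw [← map_pow, hA2, map_mul, hc, conj_conj]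
  have cEp : conj E ^ (e + 2) = c := by rw [hc, map_pow]
  obtain ⟨lam, hlam0, hlam⟩ : ∃ lam : ℝ, 0 < lam ∧ lam ^ e = l :=
    ⟨l ^ ((e : ℝ)⁻¹), by positivity, Real.rpow_inv_natCast_pow hl.le (by omega)⟩
  have hlamc : (lam : ℂ) ^ e = l := by exact_mod_cast hlam
  obtain ⟨η, η0, η1, hη⟩ : ∃ η : ℝ, 0 < η ∧ η ≤ 1 / 2 ∧ ∀ z ∈ Rect η 0, (l : ℂ) * z ∈ W := by
    obtain ⟨δ, hδ, h⟩ := (isCompact_Icc.image continuous_ofReal).exists_thickening_subset_open
      (t := (fun z : ℂ => (l : ℂ) * z) ⁻¹' W) (hW.preimage (by fun_prop)) (by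
        rintro _ ⟨t, ht : t ∈ Icc (0 : ℝ) 1, rfl⟩
        have := hseg (l * t) ⟨by nlinarith [ht.1], by nlinarith [ht.2]⟩
        rwa [ofReal_mul] at this)
    refine ⟨min (δ / 2) (1 / 2), by positivity, min_le_right _ _, fun z hz => h ?_⟩
    obtain ⟨c1, c2, c3⟩ := hz
    have c4 := min_le_left (δ / 2) (1 / 2)
    push_cast at c1 c2
    refine mem_thickening_iff.2 ⟨_, ⟨max 0 (min 1 z.re), ⟨le_max_left _ _,
      max_le zero_le_one (min_le_left _ _)⟩, rfl⟩, ?_⟩
    rw [dist_eq_norm]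
    refine (norm_le_abs_re_add_abs_im _).trans_lt ?_
    have c5 : |z.re - max 0 (min 1 z.re)| < δ / 2 := by
      rw [abs_lt]
      rcases le_total 1 z.re with h1 | h1 <;> rcases le_total 0 z.re with h2 | h2 <;>
        simp [h1, h2] <;> (try constructor) <;> linarith
    simp only [sub_re, ofReal_re, sub_im, ofReal_im, sub_zero]
    linarith
  set k := B * conj A * conj E with hk
  have nk : ‖k‖ = 1 := by simp [hk, nA, nB, nE]
  have ik := mul_conj_one nk
  have hkp : k ^ (e + 2) = -1 := by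
    rw [hk, mul_pow, mul_pow, cEp, pow_succ B, pow_succ (conj A), hB2, cA]
    linear_combination (-(B * conj B) * (c * E ^ (e + 2))) * iA - (c * E ^ (e + 2)) * iB - cE
  have hk1 : k ^ (e + 1) = -conj k := by
    rw [pow_succ] at hkp
    linear_combination conj k * hkp - k ^ (e + 1) * ik
  have hk2 : conj k ^ (e + 1) = -k := by rw [← map_pow, hk1, map_neg, conj_conj]
  let P₀ : ℂ → ℂ × ℂ := fun z => (lam * A * x (l * z), lam * B * y (l * z))
  have hs : ∀ z ∈ Rect η 0, Sol e (2 * lam + 1) P₀ z := fun z hz => by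
    obtain ⟨c1, c2, c3, c4, -⟩ := hxy _ (hη z hz)
    have h1 : HasDerivAt (fun w : ℂ => l * w) l z := by
      simpa using (hasDerivAt_id z).const_mul (l : ℂ)
    refine ⟨((c1.comp z h1).const_mul (lam * A)).congr_deriv ?_,
      ((c2.comp z h1).const_mul (lam * B)).congr_deriv ?_, ?_, ?_⟩
    · simp only [P₀, mul_pow, hB2, ← hlamc]; ring
    · simp only [P₀, mul_pow, hA2, ← hlamc]; ring
    · simp only [P₀, norm_mul, nA, norm_real, Real.norm_eq_abs, abs_of_pos hlam0]; nlinarith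
    · simp only [P₀, norm_mul, nB, norm_real, Real.norm_eq_abs, abs_of_pos hlam0]; nlinarith
  have hrev : ∀ z : ℂ, |z.re| < η → |z.im| < η →
      P₀ z = (conj k * (P₀ (-z)).2, k * (P₀ (-z)).1) := by
    have hin : ∀ z : ℂ, |z.re| < η → |z.im| < η → z ∈ Rect η 0 := fun z c1 c2 =>
      ⟨by push_cast; linarith [neg_abs_le z.re], by push_cast; linarith [le_abs_self z.re], c2⟩
    intro z c1 c2
    refine sol_unique (e := e) (M := 2 * lam + 1)
      (Q := fun z => (conj k * (P₀ (-z)).2, k * (P₀ (-z)).1)) ?_ fun t ht => ?_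
    · simp only [P₀, neg_zero, mul_zero, hx0, hy0, hk, map_mul, conj_conj]
      ext
      · linear_combination (-lam * A * ρ * E) * iB
      · linear_combination (-lam * B * ρ * (E * conj E)) * iA - lam * B * ρ * iE
    · have d1 : |((t : ℂ) * z).re| < η := by
        rw [re_ofReal_mul, abs_mul, abs_of_nonneg ht.1]; nlinarith [abs_nonneg z.re, ht.1, ht.2]
      have d2 : |((t : ℂ) * z).im| < η := by
        rw [im_ofReal_mul, abs_mul, abs_of_nonneg ht.1]; nlinarith [abs_nonneg z.im, ht.1, ht.2]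
      refine ⟨hs _ (hin _ d1 d2), ?_⟩
      obtain ⟨f1, f2, f3, f4⟩ := hs _ (hin (-(t * z)) (by simpa using d1) (by simpa using d2))
      refine ⟨((f2.comp _ (hasDerivAt_neg _)).const_mul (conj k)).congr_deriv ?_,
        ((f1.comp _ (hasDerivAt_neg _)).const_mul k).congr_deriv ?_, ?_, ?_⟩
      · simp only [mul_pow, hk1]; ring
      · simp only [mul_pow, hk2]; ring
      · rwa [norm_mul, norm_conj, nk, one_mul]
      · rwa [norm_mul, nk, one_mul]
  have ha : (A * B * E) ^ (e + 1) = -(A * B * conj E) := by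
    rw [mul_pow, mul_pow, hA2, hB2]
    rw [pow_succ] at cE
    linear_combination (-(A * B * conj E)) * cE + (c * B * A * E ^ (e + 1)) * iE
  have hb : (-(A * B * conj E)) ^ (e + 1) = A * B * E := by
    rw [neg_pow, mul_pow, mul_pow, hA2, hB2]
    rw [pow_succ] at cEp
    have h3 : c * c = -(-1) ^ (e + 1) := by
      have := congrArg conj hE
      rw [map_pow, ← hc, map_pow, map_neg, map_one, pow_succ (-1 : ℂ)] at this
      linear_combination this
    linear_combination ((-1) ^ (e + 1) * c * B * A * conj E ^ (e + 1)) * iE -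
      ((-1) ^ (e + 1) * c * B * A * E) * cEp - ((-1) ^ (e + 1) * B * A * E) * h3 + A * B * E * s2
  obtain ⟨P, p1, p2, p3, p4⟩ := extend η0 η1 ha hb (by simp [nA, nB, nE]) (by simp [nA, nB, nE]) hs
    (fun z c1 c2 => by
      obtain ⟨-, -, -, -, m1, m2⟩ := hxy _ (hη z c1)
      have h1 := hrev (conj z - (1 : ℝ))
        (by have := c1.2.1; have := c2.1; push_cast at *; simp [abs_lt]; constructor <;> linarith)
        (by simpa using c1.2.2)
      have h2 : (l : ℂ) * -(conj z - (1 : ℝ)) = l - conj (l * z) := by simp; ring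
      rw [gl, h1]
      simp only [P₀, h2, m1, m2]
      simp only [hk, map_mul, conj_conj, conj_ofReal, map_neg]
      ext
      · linear_combination (-lam * A * x (l * z) * (B * conj B) * (E * conj E)) * iA -
          (lam * A * x (l * z) * (E * conj E)) * iB - lam * A * x (l * z) * iE
      · linear_combination (-lam * B * y (l * z) * (B * conj B) * (E * conj E)) * iA -
          (lam * B * y (l * z) * (E * conj E)) * iB - lam * B * y (l * z) * iE)
  have hs2 : -(A * B * conj E) * conj (A * B * E) = -conj (E ^ 2) := by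
    simp only [map_mul, map_pow]
    linear_combination (-(B * conj B) * conj E ^ 2) * iA - conj E ^ 2 * iB
  refine ⟨⟨fun z => (P z).1, fun z => (P z).2, A * B * E, -(A * B * conj E), k, 2 * lam + 1, η,
    by linarith, η0, η1, p1, ha, hb, by simp [nA, nB, nE], by simp [nA, nB, nE], hkp, fun z => ?_,
    fun z => ?_, fun z => ?_, ?_, ?_, fun h => ?_⟩⟩
  · by_cases hz : |z.im| < η
    · have ho : IsOpen {z : ℂ | |z.im| < η} := isOpen_lt continuous_im.abs continuous_const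
      have hcv : Convex ℝ {z : ℂ | |z.im| < η} := by
        have : {z : ℂ | |z.im| < η} = {z : ℂ | -η < z.im} ∩ {z : ℂ | z.im < η} := by
          ext w; simp [abs_lt]
        rw [this]
        exact (convex_halfSpace_im_gt _).inter (convex_halfSpace_im_lt _)
      have an1 : AnalyticOnNhd ℂ (fun z => (P z).2) {z : ℂ | |z.im| < η} :=
        DifferentiableOn.analyticOnNhd
          (fun w hw => (p1 w hw).2.1.differentiableAt.differentiableWithinAt) ho
      have an2 : AnalyticOnNhd ℂ (fun z => k * (P (-z)).1) {z : ℂ | |z.im| < η} :=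
        DifferentiableOn.analyticOnNhd (fun w hw =>
          (((p1 (-w) (by simpa using hw)).1.comp w
            (hasDerivAt_neg w)).const_mul k).differentiableAt.differentiableWithinAt) ho
      refine an1.eqOn_of_preconnected_of_eventuallyEq an2 hcv.isPreconnected
        (z₀ := 0) (by simpa using η0) ?_ hz
      filter_upwards [ball_mem_nhds (0 : ℂ) η0] with w hw
      have c1 := (abs_re_le_norm w).trans_lt (mem_ball_zero_iff.1 hw)
      have c2 := (abs_im_le_norm w).trans_lt (mem_ball_zero_iff.1 hw)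
      have c3 := abs_lt.1 c1
      rw [p3 w ⟨by push_cast; linarith, by push_cast; linarith, c2⟩,
        p3 (-w) ⟨by simp; linarith, by simp; linarith, by simpa using c2⟩, hrev w c1 c2]
    · simp [p2 z hz, p2 (-z) (by simpa using hz)]
  · conv_lhs => rw [p4]
    simp [gl]
  · conv_lhs => rw [p4]
    simp [gl]
  · rw [p3 0 ⟨by simpa using η0, by simp; linarith, by simpa using η0⟩]
    simp only [P₀, mul_zero, hx0]
    have c1 : A ≠ 0 := fun h => by simp [h] at nA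
    have c2 : E ≠ 0 := fun h => by simp [h] at nE
    have c3 : (lam : ℂ) ≠ 0 := ofReal_ne_zero.2 hlam0.ne'
    have c4 : (ρ : ℂ) ≠ 0 := ofReal_ne_zero.2 hρ.ne'
    positivity
  · rw [hs2, neg_re, conj_re]; linarith
  · rw [hs2, hE1 h]; simp

end Pool.Agent.P.MP_c8d52e_an.AD
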