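import Pool.Agent.P.MP_c8d52e_an.Eigen
import Pool.Agent.P.MP_c8d52e_an.AD.Glob

/-! Jacobians, symmetries and the arithmetic of twisted cycles. -/

set_option autoImplicit false

namespace Pool.Agent.P.MP_c8d52e_an.AD

open Complex ComplexConjugate Matrix

/-- the map of degree `e + 1` -/
def hen (e : ℕ) (p : ℂ × ℂ) : ℂ × ℂ := (p.2, p.1 + p.2 ^ (e + 1))

/-- products of elementary matrices -/
def JT {R : Type} [CommRing R] (y : ℕ → R) : ℕ → Matrix (Fin 2) (Fin 2) R
  | 0 => 1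
  | n + 1 => !![0, 1; 1, y n] * JT y n

lemma JT_map {R R' : Type} [CommRing R] [CommRing R'] (f : R →+* R') (y : ℕ → R) (n : ℕ) :
    (JT y n).map f = JT (fun k => f (y k)) n := by
  induction n with
  | zero => simp [JT]
  | succ n ih =>
    simp only [JT]
    rw [Matrix.map_mul, ih]
    congr 1
    ext i k; fin_cases i <;> fin_cases k <;> simp

lemma JT_det {R : Type} [CommRing R] (y : ℕ → R) (n : ℕ) : (JT y n).det = (-1) ^ n := by
  induction n with
  | zero => simp [JT]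
  | succ n ih => simp only [JT]; rw [det_mul, ih, det_fin_two_of]; ring

lemma JT_cong {R : Type} [CommRing R] (c : R) (x : ℕ → R) (k : ℕ) :
    ∃ W : Matrix (Fin 2) (Fin 2) R, JT (fun n => c * x n) (2 * k) = 1 + c • W := by
  induction k with
  | zero => exact ⟨0, by simp [JT]⟩
  | succ k ih =>
    obtain ⟨W, h⟩ := ih
    have e : (!![0, 1; 1, c * x (2 * k + 1)] * !![0, 1; 1, c * x (2 * k)] :
        Matrix (Fin 2) (Fin 2) R) =
        1 + c • !![0, x (2 * k); x (2 * k + 1), c * x (2 * k + 1) * x (2 * k)] := by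
      ext i j; fin_cases i <;> fin_cases j <;> simp; ring
    rw [show 2 * (k + 1) = 2 * k + 1 + 1 by ring, JT, JT, h, ← Matrix.mul_assoc, e]
    generalize (!![0, x (2 * k); x (2 * k + 1), c * x (2 * k + 1) * x (2 * k)] :
      Matrix (Fin 2) (Fin 2) R) = Y
    refine ⟨W + Y + c • (Y * W), ?_⟩
    simp only [add_mul, mul_add, one_mul, mul_one, smul_add, Matrix.smul_mul, Matrix.mul_smul]
    abel

variable {e : ℕ}

/-- the Jacobian matrix of an iterate -/
noncomputable def Jc (e n : ℕ) (p : ℂ × ℂ) : Matrix (Fin 2) (Fin 2) ℂ :=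
  JT (fun k => (e + 1 : ℕ) * ((hen e)^[k] p).2 ^ e) n

lemma Jc_succ (n : ℕ) (p : ℂ × ℂ) :
    Jc e (n + 1) p = !![0, 1; 1, (e + 1 : ℕ) * ((hen e)^[n] p).2 ^ e] * Jc e n p := rfl

lemma fd_hen (p : ℂ × ℂ) : HasFDerivAt (hen e) (toL !![0, 1; 1, (e + 1 : ℕ) * p.2 ^ e]) p := by
  have h := (hasFDerivAt_snd (𝕜 := ℂ) (p := p)).prodMk
    ((hasFDerivAt_fst (𝕜 := ℂ) (p := p)).add ((hasFDerivAt_snd (𝕜 := ℂ) (p := p)).pow (e + 1)))
  refine HasFDerivAt.congr_fderiv h ?_
  refine ContinuousLinearMap.ext fun q => ?_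
  ext <;> simp

lemma fd_iter (n : ℕ) (p : ℂ × ℂ) : HasFDerivAt ((hen e)^[n]) (toL (Jc e n p)) p := by
  induction n with
  | zero =>
    have : Jc e 0 p = 1 := rfl
    rw [this, toL_one]; exact hasFDerivAt_id p
  | succ n ih =>
    rw [Function.iterate_succ', Jc_succ, toL_mul]
    exact (fd_hen _).comp p ih

lemma Jc_add (m n : ℕ) (p : ℂ × ℂ) : Jc e (m + n) p = Jc e m ((hen e)^[n] p) * Jc e n p := by
  induction m with
  | zero => simp [Jc, JT]
  | succ m ih =>
    rw [show m + 1 + n = (m + n) + 1 by ring, Jc_succ, Jc_succ, ih, Matrix.mul_assoc,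
      Function.iterate_add_apply]

lemma Jc_det (n : ℕ) (p : ℂ × ℂ) : (Jc e n p).det = (-1) ^ n := JT_det _ _

lemma Jc_mul {n : ℕ} {p : ℂ × ℂ} (hp : (hen e)^[n] p = p) (k : ℕ) :
    Jc e (n * k) p = Jc e n p ^ k := by
  induction k with
  | zero => rfl
  | succ k ih => rw [Nat.mul_succ, Jc_add, hp, ih, pow_succ]

/-- a diagonal map twisted by a ring endomorphism -/
def sg (φ : ℂ →+* ℂ) (a b : ℂ) (p : ℂ × ℂ) : ℂ × ℂ := (a * φ p.1, b * φ p.2)

/-- a diagonal matrix -/
def D2 (a b : ℂ) : Matrix (Fin 2) (Fin 2) ℂ := !![a, 0; 0, b]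

lemma D2_mul (a b c d : ℂ) : D2 a b * D2 c d = D2 (a * c) (b * d) := by simp [D2]

lemma D2_one : D2 1 1 = 1 := by simp [D2, Matrix.one_fin_two]

lemma D2_map (a b : ℂ) : (D2 a b).map conj = D2 (conj a) (conj b) := by
  ext i k; fin_cases i <;> fin_cases k <;> simp [D2]

lemma D2_det (a b : ℂ) : (D2 a b).det = a * b := by simp [D2]

section sym

variable {φ : ℂ →+* ℂ} {a b : ℂ}

lemma sg_step (hb : b ^ (e + 1) = a) {n : ℕ} {p q : ℂ × ℂ} {D : Matrix (Fin 2) (Fin 2) ℂ}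
    (h : (hen e)^[n] q = sg φ a b ((hen e)^[n] p) ∧ Jc e n q * D = D2 a b * (Jc e n p).map φ) :
    (hen e)^[n + 1] q = sg φ b a ((hen e)^[n + 1] p) ∧
      Jc e (n + 1) q * D = D2 b a * (Jc e (n + 1) p).map φ := by
  constructor
  · rw [Function.iterate_succ_apply', Function.iterate_succ_apply', h.1]
    ext
    · simp [hen, sg]
    · simp only [hen, sg, map_add, map_pow, mul_pow, hb]; ring
  · rw [Jc_succ, Jc_succ, Matrix.mul_assoc, h.2, Matrix.map_mul, ← Matrix.mul_assoc,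
      ← Matrix.mul_assoc, h.1]
    congr 1
    ext i k
    fin_cases i <;> fin_cases k <;> simp [D2, sg, Matrix.mul_apply, Fin.sum_univ_two]
    rw [← hb]; ring

lemma sg_even (ha : a ^ (e + 1) = b) (hb : b ^ (e + 1) = a) (k : ℕ) (p : ℂ × ℂ) :
    (hen e)^[2 * k] (sg φ a b p) = sg φ a b ((hen e)^[2 * k] p) ∧
      Jc e (2 * k) (sg φ a b p) * D2 a b = D2 a b * (Jc e (2 * k) p).map φ := by
  induction k with
  | zero => exact ⟨rfl, by simp [Jc, JT]⟩
  | succ k ih => exact sg_step ha (sg_step hb ih)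

lemma sg_odd (ha : a ^ (e + 1) = b) (hb : b ^ (e + 1) = a) (k : ℕ) (p : ℂ × ℂ) :
    (hen e)^[2 * k + 1] (sg φ a b p) = sg φ b a ((hen e)^[2 * k + 1] p) ∧
      Jc e (2 * k + 1) (sg φ a b p) * D2 a b = D2 b a * (Jc e (2 * k + 1) p).map φ :=
  sg_step hb (sg_even ha hb k p)

lemma norm_sg (na : ‖a‖ = 1) (nb : ‖b‖ = 1) (p : ℂ × ℂ) : ‖sg conj a b p‖ = ‖p‖ := by
  simp [sg, Prod.norm_def, na, nb]

lemma orbit_le (ha : a ^ (e + 1) = b) (hb : b ^ (e + 1) = a) (na : ‖a‖ = 1) (nb : ‖b‖ = 1)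
    {p : ℂ × ℂ} {m : ℕ} (hm : 0 < m) (hp : (hen e)^[m] p = sg conj a b p) {R : ℝ}
    (hR : ∀ n ≤ m, ‖(hen e)^[n] p‖ ≤ R) (n : ℕ) : ‖(hen e)^[n] p‖ ≤ R := by
  induction n using Nat.strong_induction_on with
  | _ n ih =>
    by_cases h : n ≤ m
    · exact hR n h
    · obtain ⟨i, rfl⟩ : ∃ i, n = i + m := ⟨n - m, by omega⟩
      have := ih i (by omega)
      rw [Function.iterate_add_apply, hp]
      obtain ⟨j, rfl | rfl⟩ := Nat.even_or_odd' i
      · rwa [(sg_even ha hb j p).1, norm_sg na nb]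
      · rwa [(sg_odd ha hb j p).1, norm_sg nb na]

/-- the derivative of the square of the twisted map -/
noncomputable def NM (a b : ℂ) (J : Matrix (Fin 2) (Fin 2) ℂ) : Matrix (Fin 2) (Fin 2) ℂ :=
  D2 a b * J.map conj * D2 (conj a) (conj b) * J

lemma twisted (ha : a ^ (e + 1) = b) (hb : b ^ (e + 1) = a) (na : ‖a‖ = 1) (nb : ‖b‖ = 1)
    {p : ℂ × ℂ} {k : ℕ} (hp : (hen e)^[2 * k + 1] p = sg conj a b p) :
    (b * conj a) ^ (e + 2) = 1 ∧ (hen e)^[2 * (2 * k + 1) * (e + 2)] p = p ∧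
      Jc e (2 * (2 * k + 1)) p = D2 (b * conj a) (a * conj b) * NM a b (Jc e (2 * k + 1) p) ∧
      Jc e (2 * (2 * k + 1) * (e + 2)) p = NM a b (Jc e (2 * k + 1) p) ^ (e + 2) := by
  have ia := mul_conj_one na
  have ib := mul_conj_one nb
  have h1 : (b * conj a) ^ (e + 1) = a * conj b := by rw [mul_pow, hb, ← map_pow, ha]
  have h2 : (a * conj b) ^ (e + 1) = b * conj a := by rw [mul_pow, ha, ← map_pow, hb]
  have h3 : (b * conj a) ^ (e + 2) = 1 := by
    rw [pow_succ, h1]; linear_combination (b * conj b) * ia + ib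
  have h4 : (a * conj b) ^ (e + 2) = 1 := by
    rw [pow_succ, h2]; linear_combination (b * conj b) * ia + ib
  have h5 : (hen e)^[2 * (2 * k + 1)] p = sg (RingHom.id ℂ) (b * conj a) (a * conj b) p := by
    rw [two_mul, Function.iterate_add_apply, hp, (sg_odd ha hb k p).1, hp]
    ext <;> simp [sg, mul_assoc]
  have h6 : Jc e (2 * (2 * k + 1)) p =
      D2 (b * conj a) (a * conj b) * NM a b (Jc e (2 * k + 1) p) := by
    have e1 : D2 (b * conj a) (a * conj b) * D2 a b = D2 b a := by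
      rw [D2_mul]; congr 1
      · linear_combination b * ia
      · linear_combination a * ib
    rw [two_mul, Jc_add, hp, NM, ← Matrix.mul_assoc, ← Matrix.mul_assoc, ← Matrix.mul_assoc, e1,
      ← (sg_odd ha hb k p).2, Matrix.mul_assoc _ (D2 a b), D2_mul, ia, ib, D2_one, Matrix.mul_one]
  generalize b * conj a = s at *
  generalize a * conj b = t at *
  generalize NM a b (Jc e (2 * k + 1) p) = N at *
  generalize 2 * k + 1 = m at *
  have h7 : ∀ j : ℕ, (hen e)^[2 * m * j] p = sg (RingHom.id ℂ) (s ^ j) (t ^ j) p ∧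
      Jc e (2 * m * j) p = D2 (s ^ j) (t ^ j) * N ^ j := fun j => by
    induction j with
    | zero => exact ⟨by simp [sg], by simp [Jc, JT, D2_one]⟩
    | succ j ih =>
      have e1 := sg_even (φ := RingHom.id ℂ) (a := s ^ j) (b := t ^ j)
        (by rw [← pow_mul, mul_comm, pow_mul, h1]) (by rw [← pow_mul, mul_comm, pow_mul, h2]) m p
      rw [Nat.mul_succ, add_comm, Function.iterate_add_apply, Jc_add, ih.1, ih.2, e1.1, h5,
        ← Matrix.mul_assoc, e1.2, h6]
      constructor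
      · ext <;> simp [sg, pow_succ, mul_assoc]
      · rw [pow_succ s, pow_succ t, pow_succ' N, ← D2_mul]
        simp only [RingHom.coe_id, Matrix.map_id, Matrix.mul_assoc]
  obtain ⟨h8, h9⟩ := h7 (e + 2)
  rw [h3, h4] at h8 h9
  exact ⟨h3, by rw [h8]; simp [sg], h6, by rw [h9, D2_one, Matrix.one_mul]⟩

end sym

lemma mem_val (he : 1 ≤ e) (V : ValuationSubring ℂ) {p : ℂ × ℂ} {N : ℕ} (hN : 0 < N)
    (hp : (hen e)^[N] p = p) (n : ℕ) : ((hen e)^[n] p).2 ∈ V := by
  set x : ℕ → ℂ := fun k => ((hen e)^[k] p).2 with hx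
  have hrec : ∀ k, x (k + 1) ^ (e + 1) = x (k + 2) - x k := by
    intro k
    simp only [hx]
    rw [show k + 2 = k + 1 + 1 from rfl, Function.iterate_succ_apply' (hen e) (k + 1),
      Function.iterate_succ_apply' (hen e) k]
    simp [hen]
  have hper : Function.Periodic x N := fun k => by
    simp only [hx]; rw [Function.iterate_add_apply, hp]
  obtain ⟨k0, -, hk0⟩ := Finset.exists_max_image (Finset.range N) (fun k => V.valuation (x k))
    ⟨0, Finset.mem_range.mpr hN⟩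
  have hmax : ∀ k, V.valuation (x k) ≤ V.valuation (x k0) := fun k => by
    rw [← hper.map_mod_nat k]
    exact hk0 _ (Finset.mem_range.mpr (Nat.mod_lt _ hN))
  have h1 : V.valuation (x k0) ^ (e + 1) ≤ V.valuation (x k0) := by
    have e : x k0 = x (k0 + N - 1 + 1) := by
      rw [show k0 + N - 1 + 1 = k0 + N by omega, hper]
    rw [← map_pow]
    conv_lhs => rw [e, hrec]
    exact V.valuation.map_sub_le (hmax _) (hmax _)
  have h2 : V.valuation (x k0) ≤ 1 := by
    by_contra hn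
    exact absurd (lt_self_pow₀ (not_le.1 hn) (by omega : 1 < e + 1)) (not_lt.mpr h1)
  exact (V.valuation_le_one_iff _).mp ((hmax n).trans h2)

/-- The trace is congruent to `s + t` modulo the degree. -/
lemma trace_cong (he : 1 ≤ e) {p : ℂ × ℂ} {N m : ℕ} (hN : 0 < N) (hp : (hen e)^[N] p = p)
    {s t : ℂ} {Y : Matrix (Fin 2) (Fin 2) ℂ} (hs : s ^ (e + 2) = 1) (hst : s * t = 1)
    (h : Jc e (2 * m) p = D2 s t * Y) : IsIntegral ℤ ((Y.trace - (s + t)) / (e + 1 : ℕ)) := by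
  have hd : ((e + 1 : ℕ) : ℂ) ≠ 0 := Nat.cast_ne_zero.2 (by omega)
  have key : ∀ V : ValuationSubring ℂ, (Y.trace - (s + t)) / (e + 1 : ℕ) ∈ V := fun V => by
    have hr : ∀ z : ℂ, z ^ (e + 2) = 1 → z ∈ V := fun z hz => by
      rw [← V.valuation_le_one_iff]
      have := congrArg V.valuation hz
      rw [map_pow, map_one] at this
      exact ((pow_eq_one_iff_of_nonneg zero_le (by omega)).mp this).le
    have ht : t ^ (e + 2) = 1 := by
      have : (s * t) ^ (e + 2) = 1 := by rw [hst, one_pow]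
      rwa [mul_pow, hs, one_mul] at this
    let y : ℕ → V := fun n => ⟨_, mem_val he V hN hp n⟩
    obtain ⟨W, hW⟩ := JT_cong ((e + 1 : ℕ) : V) (fun n => y n ^ e) m
    have e1 : Jc e (2 * m) p = (JT (fun n => ((e + 1 : ℕ) : V) * y n ^ e) (2 * m)).map V.subtype := by
      rw [JT_map]; rfl
    have e2 : Y = D2 t s * Jc e (2 * m) p := by
      rw [h, ← Matrix.mul_assoc, D2_mul, mul_comm t, hst, D2_one, Matrix.one_mul]
    have e3 : (Y.trace - (s + t)) / (e + 1 : ℕ) = t * (W 0 0 : ℂ) + s * (W 1 1 : ℂ) := by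
      rw [div_eq_iff hd, e2, e1, hW]
      simp [D2, Matrix.trace_fin_two, Matrix.vecMul, dotProduct, Fin.sum_univ_two]
      ring
    rw [e3]
    exact V.add_mem _ _ (V.mul_mem _ _ (hr t ht) (W 0 0).2) (V.mul_mem _ _ (hr s hs) (W 1 1).2)
  have h1 : (Y.trace - (s + t)) / (e + 1 : ℕ) ∈
      (integralClosure (Subring.closure (∅ : Set ℂ)) ℂ).toSubring := by
    rw [← iInf_valuationSubring_superset]
    exact Subring.mem_iInf.2 fun V => key V.1
  have : Algebra.IsIntegral ℤ (Subring.closure (∅ : Set ℂ)) := ⟨fun ⟨z, hz⟩ => by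
    rw [Subring.closure_empty, Subring.mem_bot] at hz
    obtain ⟨n, rfl⟩ := hz
    exact isIntegral_algebraMap (x := n)⟩
  exact isIntegral_trans (A := Subring.closure (∅ : Set ℂ)) _ h1

/-- Roots of unity congruent in this way have a small trace. -/
lemma root_trace (he : 1 ≤ e) {l s : ℂ} {N : ℕ} {τ : ℝ} (hN : 0 < N) (hl : l ^ N = 1)
    (hs : s ^ (e + 2) = 1) (hre : s.re ≤ 0) (hev : e = 2 → s = -1) (hτ : l + l⁻¹ = τ)
    (hi : IsIntegral ℤ ((τ - (s + s⁻¹)) / (e + 1 : ℕ))) : τ ≤ 1 := by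
  have tr : ∀ (z : ℂ) (n : ℕ), 0 < n → z ^ n = 1 →
      ∃ r : ℝ, |r| ≤ 2 ∧ r = 2 * z.re ∧ z + z⁻¹ = r := fun z n hn hz => by
    have h1 : ‖z‖ = 1 := norm_eq_one_of_pow_eq_one hz hn.ne'
    refine ⟨_, ?_, rfl, by rw [inv_eq_conj h1, add_conj]⟩
    rw [abs_mul, abs_two]
    linarith [abs_re_le_norm z]
  have int : ∀ (z : ℂ) (n : ℕ), 0 < n → z ^ n = 1 → IsIntegral ℚ z := fun z n hn hz =>
    IsIntegral.of_pow hn (hz ▸ isIntegral_one)
  let K := IntermediateField.adjoin ℚ ({l, s} : Set ℂ)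
  have : FiniteDimensional ℚ K := IntermediateField.finiteDimensional_adjoin (by
    rintro x (rfl | rfl)
    exacts [int _ _ hN hl, int _ _ (by omega) hs])
  have : NumberField K := {}
  let L : K := ⟨l, IntermediateField.subset_adjoin _ _ (by simp)⟩
  let S : K := ⟨s, IntermediateField.subset_adjoin _ _ (by simp)⟩
  have hL : L ^ N = 1 := Subtype.ext hl
  have hS : S ^ (e + 2) = 1 := Subtype.ext hs
  let w : K := (L + L⁻¹ - (S + S⁻¹)) / (e + 1 : ℕ)
  have hw : IsIntegral ℤ w := by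
    rw [← isIntegral_algHom_iff (K.val.restrictScalars ℤ) Subtype.val_injective]
    rw [← hτ] at hi
    simpa [w, L, S] using hi
  have kr : ∀ z : K, IsIntegral ℤ z → (∀ φ : K →+* ℂ, ‖φ z‖ ≤ 1) → ‖(z : ℂ)‖ < 1 → (z : ℂ) = 0 := by
    intro z h1 h2 h3
    by_contra h0
    obtain ⟨n, hn, h⟩ := NumberField.Embeddings.pow_eq_one_of_norm_le_one K ℂ
      (fun e => h0 (by simp [e])) h1 h2
    exact h3.ne (norm_eq_one_of_pow_eq_one (by exact_mod_cast congrArg Subtype.val h) hn.ne')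
  have im : ∀ φ : K →+* ℂ, ∃ r q : ℝ, |r| ≤ 2 ∧ |q| ≤ 2 ∧ φ L + (φ L)⁻¹ = r ∧
      φ S + (φ S)⁻¹ = q ∧ φ w = ((r - q) / (e + 1) : ℝ) := fun φ => by
    obtain ⟨r, a1, -, a2⟩ := tr (φ L) N hN (by rw [← map_pow, hL, map_one])
    obtain ⟨q, b1, -, b2⟩ := tr (φ S) (e + 2) (by omega) (by rw [← map_pow, hS, map_one])
    refine ⟨r, q, a1, b1, a2, b2, ?_⟩
    simp only [w, map_div₀, map_sub, map_add, map_inv₀, map_natCast, a2, b2]
    push_cast; rfl
  obtain ⟨σ, s1, s2, s3⟩ := tr s (e + 2) (by omega) hs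
  obtain ⟨τ', t1, -, t3⟩ := tr l N hN hl
  obtain rfl : τ = τ' := by exact_mod_cast hτ.symm.trans t3
  have hw0 : (w : ℂ) = ((τ - σ) / (e + 1) : ℝ) := by
    simp only [w, L, S]
    push_cast
    rw [hτ, s3]
  have t2 := abs_le.1 t1
  have s4 := abs_le.1 s1
  by_contra hc
  rw [not_le] at hc
  by_cases h3 : 3 ≤ e
  · have h4 : (4 : ℝ) ≤ e + 1 := by exact_mod_cast (by omega : 4 ≤ e + 1)
    have h5 : e = 3 → -2 < σ := fun h => by
      refine lt_of_le_of_ne s4.1 fun h' => ?_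
      have h0 : s ≠ 0 := fun h0 => by simp [h0] at hs
      have : (s + 1) ^ 2 = 0 := by
        rw [← h'] at s3
        push_cast at s3
        field_simp at s3
        linear_combination s3
      rw [eq_neg_of_add_eq_zero_left (pow_eq_zero_iff two_ne_zero |>.1 this), h] at hs
      norm_num at hs
    have := kr w hw (fun φ => by
      obtain ⟨r, q, a1, a2, -, -, a3⟩ := im φ
      rw [a3, norm_real, Real.norm_eq_abs, abs_div, abs_of_pos (by linarith : (0 : ℝ) < e + 1),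
        div_le_one (by linarith)]
      linarith [abs_sub r q]) (by
      rw [hw0, norm_real, Real.norm_eq_abs, abs_div, abs_of_pos (by linarith : (0 : ℝ) < e + 1),
        div_lt_one (by linarith), abs_of_pos (by linarith)]
      rcases h3.eq_or_lt with h | h
      · linarith [h5 h.symm]
      · have : (5 : ℝ) ≤ e + 1 := by exact_mod_cast (by omega : 5 ≤ e + 1)
        linarith)
    rw [hw0, ofReal_eq_zero, div_eq_zero_iff] at this
    rcases this with h | h <;> linarith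
  · obtain ⟨c, hc1, hc2⟩ : ∃ c : ℝ, c = -e ∧ S + S⁻¹ = -(e : K) := by
      refine ⟨_, rfl, Subtype.ext ?_⟩
      have h0 : s ≠ 0 := fun h0 => by simp [h0] at hs
      have h1 : s ≠ 1 := fun h1 => by rw [h1] at hre; norm_num at hre
      simp only [S]
      push_cast
      rcases (by omega : e = 1 ∨ e = 2) with rfl | rfl
      · have : s ^ 2 + s + 1 = 0 :=
          mul_left_cancel₀ (sub_ne_zero.2 h1) (by linear_combination hs)
        field_simp
        push_cast
        linear_combination this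
      · rw [hev rfl]; norm_num
    have hq : ∀ (φ : K →+* ℂ) (q : ℝ), φ S + (φ S)⁻¹ = q → q = -e := fun φ q h => by
      rw [← map_inv₀, ← map_add, hc2, map_neg, map_natCast] at h
      exact_mod_cast h.symm
    have hσ : σ = -e := hq K.val.toRingHom σ s3
    have he' : (e : ℝ) = 1 ∨ (e : ℝ) = 2 := by
      rcases (by omega : e = 1 ∨ e = 2) with rfl | rfl <;> simp
    have bd : ∀ r : ℝ, |r| ≤ 2 → ‖(((r - -e) / (e + 1) : ℝ) : ℂ) *
        ((((r - -e) / (e + 1) : ℝ) : ℂ) - 1)‖ < 1 := fun r hr => by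
      have := abs_le.1 hr
      rw [← ofReal_one, ← ofReal_sub, ← ofReal_mul, norm_real, Real.norm_eq_abs, abs_lt]
      rcases he' with h | h <;> rw [h] <;> constructor <;>
        nlinarith [sq_nonneg r, sq_nonneg (2 * r + 1)]
    have := kr (w * (w - 1)) (hw.mul (hw.sub isIntegral_one)) (fun φ => by
      obtain ⟨r, q, a1, -, -, a2, a3⟩ := im φ
      rw [map_mul, map_sub, map_one, a3, hq φ q a2]
      exact (bd r a1).le) (by push_cast; rw [hw0, hσ]; exact bd τ t1)
    push_cast at this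
    rw [hw0, hσ, ← ofReal_one, ← ofReal_sub, ← ofReal_mul, ofReal_eq_zero] at this
    rcases he' with h | h <;> rw [h] at this <;> nlinarith

end Pool.Agent.P.MP_c8d52e_an.AD
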