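import Pool.Agent.P.MP_c8d52e_an.Main1
import Pool.Agent.P.MP_c8d52e_an.AD.Alg

/-! The iterates follow the flow; the chart around the closed orbit. -/

set_option autoImplicit false

namespace Pool.Agent.P.MP_c8d52e_an.AD

open Complex ComplexConjugate Metric Set Filter Topology Asymptotics Matrix

lemma leap (e : ℕ) {M C₀ : ℝ} (hM : 1 ≤ M) (hC : 1 ≤ C₀) : ∃ C : ℝ, 1 ≤ C ∧ ∀ δ : ℝ, 0 < δ →
    C * δ ≤ 1 → ∀ (X U : ℕ → ℂ) (N : ℕ), N * δ ≤ 1 →
    (∀ k, X (k + 2) = X k + 2 * δ * X (k + 1) ^ (e + 1)) → (∀ k < N, ‖U (k + 1)‖ ≤ M) →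
    (∀ k < N, ‖U (k + 2) - U k - 2 * δ * U (k + 1) ^ (e + 1)‖ ≤ C₀ * δ ^ 2) →
    ‖X 0 - U 0‖ ≤ C₀ * δ → ‖X 1 - U 1‖ ≤ C₀ * δ →
    ‖X N - U N‖ ≤ C * δ ∧ ‖X (N + 1) - U (N + 1)‖ ≤ C * δ := by
  set L : ℝ := 2 * ((e + 1) * (M + 1) ^ e) with hL
  have hL0 : 0 ≤ L := by positivity
  have hE := Real.one_le_exp hL0
  refine ⟨2 * C₀ * Real.exp L, by nlinarith, fun δ hδ hC1 X U N hN hX hU hT h0 h1 => ?_⟩
  have hB : ∀ k : ℕ, k ≤ N →
      C₀ * δ * (1 + k * δ) * Real.exp (L * (k * δ)) ≤ 2 * C₀ * Real.exp L * δ := fun k hk => by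
    have a1 : (k : ℝ) * δ ≤ 1 := le_trans (by gcongr) hN
    have a2 : Real.exp (L * (k * δ)) ≤ Real.exp L := Real.exp_le_exp.2 (by nlinarith)
    calc _ ≤ C₀ * δ * 2 * Real.exp L := by gcongr; linarith
      _ = _ := by ring
  have key : ∀ k : ℕ, k ≤ N →
      ‖X k - U k‖ ≤ C₀ * δ * (1 + k * δ) * Real.exp (L * (k * δ)) ∧
      ‖X (k + 1) - U (k + 1)‖ ≤ C₀ * δ * (1 + k * δ) * Real.exp (L * (k * δ)) := by
    intro k
    induction k with
    | zero => intro _; simpa using ⟨h0, h1⟩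
    | succ k ih =>
      intro hk
      obtain ⟨a1, a2⟩ := ih (by omega)
      have a3 := hB k (by omega)
      have a4 := hU k hk
      have a5 : ‖X (k + 1)‖ ≤ M + 1 := by linarith [norm_sub_norm_le (X (k + 1)) (U (k + 1))]
      have a6 := pow_lip a5 (a4.trans (by linarith : M ≤ M + 1)) e
      have a7 : Real.exp (L * ((k + 1 : ℕ) * δ)) = Real.exp (L * (k * δ)) * Real.exp (L * δ) := by
        rw [← Real.exp_add]; congr 1; push_cast; ring
      have a8 := Real.add_one_le_exp (L * δ)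
      have a9 : 1 ≤ Real.exp (L * (k * δ)) := Real.one_le_exp (by positivity)
      have a10 : 0 ≤ L * δ := by positivity
      have a11 : ‖X (k + 1 + 1) - U (k + 1 + 1)‖ ≤
          ‖X k - U k‖ + L * δ * ‖X (k + 1) - U (k + 1)‖ + C₀ * δ ^ 2 := by
        rw [show X (k + 1 + 1) - U (k + 1 + 1) = X k - U k +
          2 * δ * (X (k + 1) ^ (e + 1) - U (k + 1) ^ (e + 1)) -
            (U (k + 2) - U k - 2 * δ * U (k + 1) ^ (e + 1)) by rw [hX]; ring]
        refine (norm_sub_le _ _).trans (add_le_add ((norm_add_le _ _).trans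
          (add_le_add le_rfl ?_)) (hT k hk))
        rw [norm_mul, norm_mul, norm_real, Real.norm_eq_abs, abs_of_pos hδ, Complex.norm_two]
        refine (mul_le_mul_of_nonneg_left a6 (by positivity)).trans_eq ?_
        rw [hL]; ring
      rw [a7]
      push_cast
      generalize Real.exp (L * (k * δ)) = A at *
      generalize Real.exp (L * δ) = B at *
      have b0 : 0 ≤ C₀ * δ * (1 + k * δ) * A := by positivity
      have b1 : C₀ * δ ^ 2 * 1 ≤ C₀ * δ ^ 2 * (A * B) := by gcongr; nlinarith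
      have b2 : C₀ * δ * (1 + k * δ) * A * (L * δ + 1) ≤ C₀ * δ * (1 + k * δ) * A * B := by gcongr
      have b3 := mul_le_mul_of_nonneg_left a2 a10
      have b4 := mul_nonneg b0 a10
      have b5 : 0 ≤ C₀ * δ ^ 2 := by positivity
      constructor <;> nlinarith
  exact ⟨(key N le_rfl).1.trans (hB N le_rfl), (key N le_rfl).2.trans (hB N le_rfl)⟩

lemma strip_convex (η : ℝ) : Convex ℝ {z : ℂ | |z.im| < η} := by
  have : {z : ℂ | |z.im| < η} = {z : ℂ | -η < z.im} ∩ {z : ℂ | z.im < η} := by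
    ext w; simp [abs_lt]
  rw [this]
  exact (convex_halfSpace_im_gt _).inter (convex_halfSpace_im_lt _)

/-- a root of order `e` near `1` -/
noncomputable def rt (e : ℕ) (ν : ℂ) : ℂ := if 0 < ν.re then exp (log ν / e) else 1

variable {e : ℕ}

lemma rt_ne (ν : ℂ) : rt e ν ≠ 0 := by
  unfold rt; split_ifs
  exacts [exp_ne_zero _, one_ne_zero]

lemma rt_one : rt e 1 = 1 := by simp [rt]

lemma rt_conj (ν : ℂ) : rt e (conj ν) = conj (rt e ν) := by
  unfold rt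
  rw [conj_re]
  split_ifs with h
  · rw [log_conj _ (fun h' => absurd (arg_eq_pi_iff.1 h').1 (not_lt.2 h.le)), ← exp_conj, map_div₀,
      map_natCast]
  · simp

lemma re_pos {ν : ℂ} (h : ‖ν - 1‖ ≤ 1 / 2) : 0 < ν.re ∧ ν ≠ 0 ∧ ‖ν‖ ≤ 2 := by
  have h1 := abs_le.1 ((abs_re_le_norm _).trans h)
  rw [sub_re, one_re] at h1
  have h2 := norm_sub_norm_le ν 1
  rw [norm_one] at h2
  exact ⟨by linarith, fun h0 => by rw [h0] at h1; simp at h1; linarith, by linarith⟩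

lemma rt_pow (he : 1 ≤ e) {ν : ℂ} (h : ‖ν - 1‖ ≤ 1 / 2) : rt e ν ^ e = ν := by
  rw [rt, if_pos (re_pos h).1, ← exp_nat_mul,
    mul_div_cancel₀ _ (Nat.cast_ne_zero.2 (by omega)), exp_log (re_pos h).2.1]

lemma rt_norm (he : 1 ≤ e) {ν : ℂ} (h : ‖ν - 1‖ ≤ 1 / 2) : ‖rt e ν‖ ≤ 2 := by
  refine le_of_pow_le_pow_left₀ (n := e) (by omega) (by norm_num) ?_
  rw [← norm_pow, rt_pow he h]
  exact (re_pos h).2.2.trans (le_self_pow₀ (by norm_num) (by omega))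

lemma rt_deriv {ν : ℂ} (h : ‖ν - 1‖ ≤ 1 / 2) : HasDerivAt (rt e) (rt e ν / (e * ν)) ν := by
  have h0 := (re_pos h).1
  have h1 := ((hasDerivAt_log (Or.inl h0)).div_const (e : ℂ)).cexp
  refine (h1.congr_of_eventuallyEq ?_).congr_deriv ?_
  · filter_upwards [(isOpen_lt continuous_const continuous_re).mem_nhds h0] with w hw
    exact if_pos hw
  · rw [rt, if_pos h0]; ring

namespace Orb

variable (O : Orb e)

/-- the two coordinates in turn -/
noncomputable def w (n : ℕ) : ℂ → ℂ := if Even n then O.u else O.v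

lemma w_prop (n : ℕ) {z : ℂ} (hz : |z.im| < O.η) :
    HasDerivAt (O.w n) (O.w (n + 1) z ^ (e + 1)) z ∧ ‖O.w n z‖ ≤ O.M := by
  obtain ⟨h1, h2, h3, h4⟩ := O.hd z hz
  by_cases h : Even n <;> simp [w, h, Nat.even_add_one, h1, h2, h3, h4]

lemma w_two (n : ℕ) : O.w (n + 2) = O.w n := by simp [w, Nat.even_add]

lemma w_lip (n : ℕ) {x y : ℂ} (hx : |x.im| < O.η) (hy : |y.im| < O.η) :
    ‖O.w n x - O.w n y‖ ≤ O.M ^ (e + 1) * ‖x - y‖ :=
  (strip_convex O.η).norm_image_sub_le_of_norm_hasDerivWithin_le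
    (fun _ hz => (O.w_prop n hz).1.hasDerivWithinAt)
    (fun _ hz => by
      rw [norm_pow]; exact pow_le_pow_left₀ (norm_nonneg _) (O.w_prop (n + 1) hz).2 _) hy hx

lemma w_tay (n : ℕ) {x a : ℂ} (h0 : |x.im| < O.η) (h1 : |(x + a).im| < O.η)
    (h2 : |(x + 2 * a).im| < O.η) :
    ‖O.w n (x + 2 * a) - O.w n x - 2 * a * O.w (n + 1) (x + a) ^ (e + 1)‖ ≤
      (e + 1) * O.M ^ e * (O.M ^ (e + 1) * ‖a‖) * ‖2 * a‖ := by
  have hM := O.hM
  have := ((strip_convex O.η).inter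
    (convex_closedBall (x + a) ‖a‖)).norm_image_sub_le_of_norm_hasDerivWithin_le
    (f := fun z => O.w n z - z * O.w (n + 1) (x + a) ^ (e + 1))
    (C := (e + 1) * O.M ^ e * (O.M ^ (e + 1) * ‖a‖))
    (fun z hz => ((O.w_prop n hz.1).1.sub ((hasDerivAt_id z).mul_const _)).hasDerivWithinAt)
    (fun z hz => by
      rw [one_mul]
      refine (pow_lip (O.w_prop _ hz.1).2 (O.w_prop _ h1).2 e).trans ?_
      gcongr
      refine (O.w_lip _ hz.1 h1).trans ?_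
      gcongr
      exact mem_closedBall_iff_norm.1 hz.2)
    (x := x) (y := x + 2 * a) ⟨h0, by simp⟩
    ⟨h2, mem_closedBall_iff_norm.2 (by rw [show x + 2 * a - (x + a) = a by ring])⟩
  rw [add_sub_cancel_left] at this
  refine le_trans (le_of_eq ?_) this
  congr 1
  ring

/-- the chart -/
noncomputable def Θ (q : ℂ × ℂ) : ℂ × ℂ := (rt e q.2 * O.u q.1, rt e q.2 * O.v q.1)

lemma approx (he : 1 ≤ e) : ∃ C : ℝ, 1 ≤ C ∧ ∀ δ h : ℝ, 0 < δ → C * δ ≤ 1 → 0 < h →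
    h ^ e = 2 * δ → ∀ z ν : ℂ, |z.im| ≤ O.η / 4 → ‖ν - 1‖ ≤ O.η / 8 → ∀ n : ℕ, n * δ ≤ 1 →
    ‖(h : ℂ)⁻¹ • (hen e)^[n] ((h : ℂ) • O.Θ (z, ν)) -
      (rt e ν * O.w n (z + ν * (n * δ)), rt e ν * O.w (n + 1) (z + ν * (n * δ)))‖ ≤ C * δ ∧
    ‖(hen e)^[n] ((h : ℂ) • O.Θ (z, ν))‖ ≤ h * (2 * O.M + 1) := by
  have hM := O.hM
  have η0 := O.η0
  have η1 := O.η1
  have hP : 1 ≤ O.M ^ (e + 1) := one_le_pow₀ hM
  have hQ : 1 ≤ ((e : ℝ) + 1) * O.M ^ e :=
    one_le_mul_of_one_le_of_one_le (by linarith [Nat.cast_nonneg (α := ℝ) e]) (one_le_pow₀ hM)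
  obtain ⟨C, hC, H⟩ := leap e (M := 2 * O.M) (C₀ := 16 * ((e + 1) * O.M ^ e) * O.M ^ (e + 1))
    (by linarith) (by nlinarith)
  refine ⟨C + 4 * O.M ^ (e + 1), by linarith, fun δ h hδ hC1 hh hhe z ν hz hν n hn => ?_⟩
  have hν2 : ‖ν - 1‖ ≤ 1 / 2 := by linarith
  have nν := (re_pos hν2).2.2
  have nμ := rt_norm he hν2
  have pμ := rt_pow he hν2
  have hδ1 : δ ≤ 1 / 2 := by nlinarith
  have h0 : (h : ℂ) ≠ 0 := ofReal_ne_zero.2 hh.ne'
  have hhc : (h : ℂ) ^ e = 2 * δ := by exact_mod_cast hhe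
  have him : ∀ k : ℕ, k ≤ n + 1 → |(z + ν * (k * δ)).im| < O.η := fun k hk => by
    have a1 : (k : ℝ) * δ ≤ 2 := by
      have : (k : ℝ) ≤ n + 1 := by exact_mod_cast hk
      nlinarith
    have a2 : |ν.im| ≤ O.η / 8 := by simpa using (abs_im_le_norm _).trans hν
    have a3 : (z + ν * (k * δ)).im = z.im + ν.im * (k * δ) := by simp
    have a4 : 0 ≤ (k : ℝ) * δ := by positivity
    rw [a3]
    refine (abs_add_le _ _).trans_lt ?_
    rw [abs_mul, abs_of_nonneg a4]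
    nlinarith [abs_nonneg ν.im]
  have na : ‖ν * δ‖ ≤ 2 * δ := by
    rw [norm_mul, norm_real, Real.norm_eq_abs, abs_of_pos hδ]; gcongr
  have sh : ∀ j k : ℕ, k ≤ n → ‖rt e ν * O.w j (z + ν * (k * δ)) -
      rt e ν * O.w j (z + ν * ((k + 1 : ℕ) * δ))‖ ≤ 4 * O.M ^ (e + 1) * δ := fun j k hk => by
    have a1 := O.w_lip j (him k (by omega)) (him (k + 1) (by omega))
    rw [show z + ν * (k * δ) - (z + ν * ((k + 1 : ℕ) * δ)) = -(ν * δ) by push_cast; ring,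
      norm_neg] at a1
    rw [← mul_sub, norm_mul]
    calc _ ≤ 2 * (O.M ^ (e + 1) * (2 * δ)) := by
          gcongr
          exact a1.trans (by gcongr)
      _ = _ := by ring
  set p := (h : ℂ) • O.Θ (z, ν) with hp
  have hs : ∀ k, ((hen e)^[k + 1] p).1 = ((hen e)^[k] p).2 := fun k => by
    rw [Function.iterate_succ_apply']; rfl
  have hb : ∀ j k : ℕ, k ≤ n + 1 → ‖rt e ν * O.w j (z + ν * (k * δ))‖ ≤ 2 * O.M := fun j k hk => by
    rw [norm_mul]
    gcongr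
    exact (O.w_prop j (him k hk)).2
  obtain ⟨c1, c2⟩ := H δ hδ (by nlinarith) (fun k => (h : ℂ)⁻¹ * ((hen e)^[k] p).1)
    (fun k => rt e ν * O.w k (z + ν * (k * δ))) n hn
    (fun k => by
      rw [hs (k + 1), hs k, Function.iterate_succ_apply', ← hhc]
      simp only [hen, mul_pow, inv_pow]
      field_simp
      ring)
    (fun k hk => hb _ _ (by omega))
    (fun k hk => by
      have a1 : z + ν * ((k + 1 : ℕ) * δ) = z + ν * (k * δ) + ν * δ := by push_cast; ring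
      have a2 : z + ν * ((k + 2 : ℕ) * δ) = z + ν * (k * δ) + 2 * (ν * δ) := by push_cast; ring
      have a3 := O.w_tay k (him k (by omega)) (a1 ▸ him (k + 1) (by omega))
        (a2 ▸ him (k + 2) (by omega))
      rw [O.w_two, a1, a2, mul_pow, pow_succ (rt e ν), pμ]
      generalize z + ν * (k * δ) = ζ at a3 ⊢
      rw [show rt e ν * O.w k (ζ + 2 * (ν * δ)) - rt e ν * O.w k ζ -
          2 * δ * (ν * rt e ν * O.w (k + 1) (ζ + ν * δ) ^ (e + 1)) =
        rt e ν * (O.w k (ζ + 2 * (ν * δ)) - O.w k ζ -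
          2 * (ν * δ) * O.w (k + 1) (ζ + ν * δ) ^ (e + 1)) by ring, norm_mul]
      rw [norm_mul 2, Complex.norm_two] at a3
      calc _ ≤ 2 * ((e + 1) * O.M ^ e * (O.M ^ (e + 1) * (2 * δ)) * (2 * (2 * δ))) := by
            gcongr
            exact a3.trans (by gcongr)
        _ = _ := by ring)
    (by simp [hp, Θ, w, h0]; positivity)
    (by
      have a1 := sh 1 0 (by omega)
      rw [hs 0]
      simp only [hp, Θ, w, Function.iterate_zero, id, Prod.smul_snd, smul_eq_mul,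
        inv_mul_cancel_left₀ h0] at a1 ⊢
      simp only [Nat.cast_zero, zero_mul, mul_zero, add_zero, zero_add] at a1
      refine le_trans (by simpa using a1) ?_
      have : 0 ≤ O.M ^ (e + 1) * δ := by positivity
      nlinarith)
  have c3 : ‖(h : ℂ)⁻¹ • (hen e)^[n] p -
      (rt e ν * O.w n (z + ν * (n * δ)), rt e ν * O.w (n + 1) (z + ν * (n * δ)))‖ ≤
      (C + 4 * O.M ^ (e + 1)) * δ := by
    have : 0 ≤ O.M ^ (e + 1) * δ := by positivity
    refine norm_prod_le_iff.2 ⟨c1.trans (by linarith), ?_⟩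
    have a1 := sh (n + 1) n le_rfl
    rw [norm_sub_rev] at a1
    rw [hs] at c2
    exact (norm_sub_le_norm_sub_add_norm_sub _ _ _).trans ((add_le_add c2 a1).trans_eq (by ring))
  refine ⟨c3, ?_⟩
  have c4 := norm_sub_norm_le ((h : ℂ)⁻¹ • (hen e)^[n] p)
    (rt e ν * O.w n (z + ν * (n * δ)), rt e ν * O.w (n + 1) (z + ν * (n * δ)))
  have c5 : ‖((rt e ν * O.w n (z + ν * (n * δ)), rt e ν * O.w (n + 1) (z + ν * (n * δ))) : ℂ × ℂ)‖
      ≤ 2 * O.M := norm_prod_le_iff.2 ⟨hb _ _ (by omega), hb _ _ (by omega)⟩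
  rw [norm_smul, norm_inv, norm_real, Real.norm_eq_abs, abs_of_pos hh] at c4
  rw [← inv_mul_le_iff₀ hh]
  linarith

/-- the energy -/
noncomputable def E : ℂ := O.u 0 ^ (e + 2) - O.v 0 ^ (e + 2)

lemma E_ne : O.E ≠ 0 := by
  rw [E, O.rev 0, neg_zero, mul_pow, O.hk, show ∀ x : ℂ, x - -1 * x = 2 * x from fun x => by ring]
  exact mul_ne_zero two_ne_zero (pow_ne_zero _ O.h0)

lemma E_const {z : ℂ} (hz : |z.im| < O.η) : O.u z ^ (e + 2) - O.v z ^ (e + 2) = O.E := by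
  have hd : ∀ w : ℂ, |w.im| < O.η →
      HasDerivAt (fun w => O.u w ^ (e + 2) - O.v w ^ (e + 2)) 0 w := by
    intro w hw
    obtain ⟨h1, h2, -, -⟩ := O.hd w hw
    refine HasDerivAt.congr_deriv ((h1.pow (e + 2)).sub (h2.pow (e + 2))) ?_
    simp; ring
  exact (isOpen_strip O.η).is_const_of_deriv_eq_zero (strip_convex _).isPreconnected
    (f := fun w => O.u w ^ (e + 2) - O.v w ^ (e + 2))
    (fun w hw => (hd w hw).differentiableAt.differentiableWithinAt)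
    (fun w hw => (hd w hw).deriv) hz (by simpa using O.η0)

/-- the derivative of the chart -/
noncomputable def TM (z ν : ℂ) : Matrix (Fin 2) (Fin 2) ℂ :=
  !![rt e ν * O.v z ^ (e + 1), rt e ν / (e * ν) * O.u z;
    rt e ν * O.u z ^ (e + 1), rt e ν / (e * ν) * O.v z]

lemma fd_Θ {q : ℂ × ℂ} (hq : |q.1.im| < O.η) (hν : ‖q.2 - 1‖ ≤ 1 / 2) :
    HasFDerivAt O.Θ (toL (O.TM q.1 q.2)) q := by
  obtain ⟨h1, h2, -, -⟩ := O.hd q.1 hq
  have a0 := (rt_deriv (e := e) hν).comp_hasFDerivAt q (hasFDerivAt_snd (𝕜 := ℂ) (p := q))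
  have a1 := a0.mul (h1.comp_hasFDerivAt q (hasFDerivAt_fst (𝕜 := ℂ) (p := q)))
  have a2 := a0.mul (h2.comp_hasFDerivAt q (hasFDerivAt_fst (𝕜 := ℂ) (p := q)))
  refine HasFDerivAt.congr_fderiv (a1.prodMk a2) ?_
  refine ContinuousLinearMap.ext fun w => ?_
  ext <;> simp [TM] <;> ring

lemma det_TM (he : 1 ≤ e) {z ν : ℂ} (hz : |z.im| < O.η) (hν : ν ≠ 0) : (O.TM z ν).det ≠ 0 := by
  have : (O.TM z ν).det = -(rt e ν ^ 2 / (e * ν) * O.E) := by
    rw [← O.E_const hz, TM, det_fin_two_of]; ring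
  rw [this]
  exact neg_ne_zero.2 (mul_ne_zero (div_ne_zero (pow_ne_zero _ (rt_ne ν))
    (mul_ne_zero (Nat.cast_ne_zero.2 (by omega)) hν)) O.E_ne)

/-- the inverse of the derivative of the chart on the orbit -/
noncomputable def TiM (z : ℂ) : Matrix (Fin 2) (Fin 2) ℂ :=
  !![-O.v z / O.E, O.u z / O.E; e * O.u z ^ (e + 1) / O.E, -(e * O.v z ^ (e + 1)) / O.E]

lemma TiM_mul (he : 1 ≤ e) {z : ℂ} (hz : |z.im| < O.η) : O.TiM z * O.TM z 1 = 1 := by
  have h := O.E_const hz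
  have hE := O.E_ne
  have h0 : (e : ℂ) ≠ 0 := Nat.cast_ne_zero.2 (by omega)
  ext i k
  fin_cases i <;> fin_cases k <;> simp [TiM, TM, rt_one, Matrix.mul_apply, Fin.sum_univ_two] <;>
    field_simp <;> first | linear_combination h | ring

/-- a bound for the entries -/
noncomputable def bd : ℝ := (e + 1) * O.M ^ (e + 1) / ‖O.E‖

lemma bd_pos : 0 < O.bd := by
  have := O.hM
  have := norm_pos_iff.mpr O.E_ne
  unfold bd; positivity

lemma TiM_le {z : ℂ} (hz : |z.im| < O.η) (i k : Fin 2) : ‖O.TiM z i k‖ ≤ O.bd := by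
  obtain ⟨-, -, h1, h2⟩ := O.hd z hz
  have hM := O.hM
  have hE := norm_pos_iff.mpr O.E_ne
  have a0 : O.M ≤ (e + 1) * O.M ^ (e + 1) :=
    (le_self_pow₀ hM (by omega)).trans (le_mul_of_one_le_left (by positivity)
      (by linarith [Nat.cast_nonneg (α := ℝ) e]))
  have a1 := h1.trans a0
  have a2 := h2.trans a0
  have a3 : e * ‖O.u z‖ ^ (e + 1) ≤ (e + 1) * O.M ^ (e + 1) := by gcongr; linarith
  have a4 : e * ‖O.v z‖ ^ (e + 1) ≤ (e + 1) * O.M ^ (e + 1) := by gcongr; linarith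
  fin_cases i <;> fin_cases k <;> simp [TiM, bd] <;> gcongr

lemma norm_Θ (he : 1 ≤ e) {q : ℂ × ℂ} (hq : |q.1.im| < O.η) (hν : ‖q.2 - 1‖ ≤ 1 / 2) :
    ‖O.Θ q‖ ≤ 2 * O.M := by
  obtain ⟨-, -, h1, h2⟩ := O.hd q.1 hq
  have := rt_norm he hν
  refine norm_prod_le_iff.mpr ⟨?_, ?_⟩ <;> simp only [Θ, norm_mul] <;> gcongr

lemma B_bound (he : 1 ≤ e) (s : ℝ) {q : ℂ × ℂ} (hq : ‖q‖ < O.η) :
    ‖toL (O.TiM (s + 1)) (O.Θ (s + 1 + q.1, 1 + q.2) - O.Θ (s + 1, 1)) - q‖ ≤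
      (8 * O.bd * O.M + 1) / O.η ^ 2 * ‖q‖ ^ 2 := by
  have η0 := O.η0
  have η1 := O.η1
  have hs : |((s : ℂ) + 1).im| < O.η := by simpa using η0
  have him : ∀ q : ℂ × ℂ, ‖q‖ < O.η → |((((s + 1 : ℂ), (1 : ℂ)) + q).1).im| < O.η ∧
      ‖(((s + 1 : ℂ), (1 : ℂ)) + q).2 - 1‖ ≤ 1 / 2 := by
    intro q hq
    have := (abs_im_le_norm _).trans (norm_fst_le q)
    have := norm_snd_le q
    simp only [Prod.fst_add, add_im, ofReal_im, one_im, zero_add, Prod.snd_add,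
      add_sub_cancel_left]
    constructor <;> linarith
  set f : ℂ × ℂ → ℂ × ℂ := fun q =>
    toL (O.TiM (s + 1)) (O.Θ (((s + 1 : ℂ), (1 : ℂ)) + q) - O.Θ (s + 1, 1)) - q with hf
  have hd : ∀ q : ℂ × ℂ, ‖q‖ < O.η → HasFDerivAt f
      ((toL (O.TiM (s + 1))).comp (toL (O.TM (s + 1 + q.1) (1 + q.2))) -
        ContinuousLinearMap.id ℂ _) q := by
    intro q hq
    have h2 := ((O.fd_Θ (him q hq).1 (him q hq).2).comp q
      ((hasFDerivAt_id q).const_add ((s + 1 : ℂ), (1 : ℂ)))).sub_const (O.Θ (s + 1, 1))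
    have h3 := ((toL (O.TiM (s + 1))).hasFDerivAt.comp q h2).sub (hasFDerivAt_id q)
    rw [ContinuousLinearMap.comp_id] at h3
    exact h3
  have hf0 : f 0 = 0 := by simp [hf]
  have hm : MapsTo f (ball 0 O.η) (closedBall (f 0) (8 * O.bd * O.M + 1)) := by
    intro q hq
    have hq' := mem_ball_zero_iff.mp hq
    rw [hf0, mem_closedBall_zero_iff]
    have h1 := O.norm_Θ he (him q hq').1 (him q hq').2
    have h2 := O.norm_Θ he (q := (s + 1, 1)) hs (by simp)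
    have h3 := norm_toL_le (O.TiM_le hs) (O.Θ (((s + 1 : ℂ), (1 : ℂ)) + q) - O.Θ (s + 1, 1))
    have h4 := norm_sub_le (O.Θ (((s + 1 : ℂ), (1 : ℂ)) + q)) (O.Θ (s + 1, 1))
    have h5 := O.bd_pos
    refine (norm_sub_le _ _).trans ?_
    nlinarith
  have ho : (fun q => f q - f 0) =o[𝓝 0] fun w : ℂ × ℂ => ‖w - 0‖ ^ 1 := by
    have h := (hd 0 (by simpa using η0)).isLittleO
    simp only [Prod.fst_zero, Prod.snd_zero, add_zero, ← toL_mul, O.TiM_mul he hs, toL_one,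
      sub_self, _root_.zero_apply, sub_zero] at h
    simp only [sub_zero, pow_one]
    exact h.norm_right
  have := dist_le_mul_div_pow_of_mapsTo_ball_of_isLittleO (n := 1)
    (fun q hq => (hd q (mem_ball_zero_iff.mp hq)).differentiableAt.differentiableWithinAt) hm ho
    (mem_ball_zero_iff.mpr hq)
  rw [hf0, dist_zero_right, dist_zero_right] at this
  refine le_trans this (le_of_eq ?_)
  rw [div_pow]
  ring

end Orb

end Pool.Agent.P.MP_c8d52e_an.AD
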