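import Mathlib

/-! A segment of a trajectory of the field `(-y ^ d, c x ^ d)` inside a disc. -/

set_option autoImplicit false

namespace Pool.Agent.P.MP_c8d52e_an.AD

open Complex ComplexConjugate Metric Set Filter Topology

/-- the principal root of `1 - c x ^ (e + 2)` -/
noncomputable def rr (e : ℕ) (c x : ℂ) : ℂ := exp (log (1 - c * x ^ (e + 2)) / (e + 2))

/-- the positive root of order `e + 2` -/
noncomputable def rad (e : ℕ) (w : ℝ) : ℝ := Real.exp (Real.log w / (e + 2))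

lemma rad_pos (e : ℕ) (w : ℝ) : 0 < rad e w := Real.exp_pos _

lemma rad_pow (e : ℕ) {w : ℝ} (hw : 0 < w) : rad e w ^ (e + 2) = w := by
  rw [rad, ← Real.exp_nat_mul]
  push_cast
  rw [mul_div_cancel₀ _ (by positivity), Real.exp_log hw]

lemma rad_lt (e : ℕ) : rad e (1 / 2) < rad e (7 / 10) :=
  lt_of_pow_lt_pow_left₀ (e + 2) (rad_pos _ _).le (by
    rw [rad_pow e (by norm_num), rad_pow e (by norm_num)]; norm_num)

lemma rad_le (e : ℕ) : rad e (7 / 10) ≤ 1 :=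
  (lt_of_pow_lt_pow_left₀ (e + 2) zero_le_one (by rw [rad_pow e (by norm_num)]; norm_num)).le

variable {e : ℕ} {c x : ℂ}

lemma small (hc : ‖c‖ = 1) (hx : x ∈ ball (0 : ℂ) (rad e (7 / 10))) :
    ‖c * x ^ (e + 2)‖ ≤ 7 / 10 := by
  rw [norm_mul, hc, one_mul, norm_pow, ← rad_pow e (by norm_num : (0 : ℝ) < 7 / 10)]
  exact pow_le_pow_left₀ (norm_nonneg _) (mem_ball_zero_iff.1 hx).le _

lemma one_sub {w : ℂ} (hw : ‖w‖ ≤ 7 / 10) :
    0 < (1 - w).re ∧ |arg (1 - w)| ≤ Real.pi / 4 := by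
  have h1 : w.re ^ 2 + w.im ^ 2 ≤ (7 / 10) ^ 2 := by
    have := Complex.sq_norm w
    rw [normSq_apply] at this
    nlinarith [norm_nonneg w]
  have h2 : 0 < (1 - w).re := by
    simp only [sub_re, one_re]; nlinarith [sq_nonneg w.im]
  refine ⟨h2, ?_⟩
  have h0 : 1 - w ≠ 0 := fun h => by rw [h] at h2; simp at h2
  have hn := norm_pos_iff.2 h0
  by_contra h
  have h3 := Real.cos_lt_cos_of_nonneg_of_le_pi (by positivity) (abs_arg_le_pi _) (not_le.1 h)
  rw [Real.cos_abs, cos_arg h0, Real.cos_pi_div_four, div_lt_iff₀ hn] at h3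
  have h4 : ‖1 - w‖ ^ 2 = (1 - w).re ^ 2 + w.im ^ 2 := by
    rw [Complex.sq_norm, normSq_apply]; simp; ring
  have h5 : (1 - w).re ^ 2 < (√2 / 2 * ‖1 - w‖) ^ 2 := by gcongr
  have h6 : (√2 : ℝ) ^ 2 = 2 := Real.sq_sqrt (by norm_num)
  rw [mul_pow, div_pow, h6, h4] at h5
  simp only [sub_re, one_re] at h5
  nlinarith [sq_nonneg (w.re - 1 / 2)]

lemma rr_ne : rr e c x ≠ 0 := exp_ne_zero _

lemma rr_pow (hc : ‖c‖ = 1) (hx : x ∈ ball (0 : ℂ) (rad e (7 / 10))) :
    rr e c x ^ (e + 2) = 1 - c * x ^ (e + 2) := by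
  have h0 : 1 - c * x ^ (e + 2) ≠ 0 := fun h => by
    have := (one_sub (small hc hx)).1
    rw [h] at this; simp at this
  have h1 : ((e : ℂ) + 2) ≠ 0 := by exact_mod_cast (by omega : e + 2 ≠ 0)
  rw [rr, ← exp_nat_mul]
  push_cast
  rw [mul_div_cancel₀ _ h1, exp_log h0]

lemma rr_norm (hc : ‖c‖ = 1) (hx : x ∈ ball (0 : ℂ) (rad e (7 / 10))) : ‖rr e c x‖ ≤ 2 := by
  refine le_of_pow_le_pow_left₀ (n := e + 2) (by omega) (by norm_num) ?_
  rw [← norm_pow, rr_pow hc hx]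
  have h1 := norm_sub_le 1 (c * x ^ (e + 2))
  have h2 := small hc hx
  have h3 : (2 : ℝ) ^ 1 ≤ 2 ^ (e + 2) := pow_le_pow_right₀ (by norm_num) (by omega)
  rw [norm_one] at h1
  linarith

lemma rr_deriv (hc : ‖c‖ = 1) (hx : x ∈ ball (0 : ℂ) (rad e (7 / 10))) :
    HasDerivAt (rr e c) (-(c * x ^ (e + 1)) / rr e c x ^ (e + 1)) x := by
  have h1 : HasDerivAt (fun x : ℂ => 1 - c * x ^ (e + 2)) (-(c * ((e + 2 : ℕ) * x ^ (e + 1)))) x :=
    ((hasDerivAt_pow (e + 2) x).const_mul c).const_sub 1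
  have h2 := ((h1.clog (Or.inl (one_sub (small hc hx)).1)).div_const ((e : ℂ) + 2)).cexp
  refine h2.congr_deriv ?_
  have h3 : ((e : ℂ) + 2) ≠ 0 := by exact_mod_cast (by omega : e + 2 ≠ 0)
  have h4 := @rr_ne e c x
  change rr e c x * _ = _
  rw [← rr_pow hc hx]
  push_cast
  field_simp
  ring

lemma rr_conj (hc : ‖c‖ = 1) (hcc : conj c = (-1) ^ (e + 2) * c)
    (hx : x ∈ ball (0 : ℂ) (rad e (7 / 10))) : rr e c (-conj x) = conj (rr e c x) := by
  have h1 : 1 - c * (-conj x) ^ (e + 2) = conj (1 - c * x ^ (e + 2)) := by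
    rw [map_sub, map_mul, map_pow, hcc, map_one, neg_pow]; ring
  have h2 : arg (1 - c * x ^ (e + 2)) ≠ Real.pi := fun h => by
    have := (one_sub (small hc hx)).2
    rw [h, abs_of_pos Real.pi_pos] at this
    linarith [Real.pi_pos]
  rw [rr, rr, h1, log_conj _ h2, ← exp_conj, map_div₀]
  simp [map_ofNat]

lemma cone (hc : ‖c‖ = 1) (hx : x ∈ ball (0 : ℂ) (rad e (7 / 10))) {β : ℝ}
    (hβ : |β| + (e + 1) / (e + 2) * (Real.pi / 4) ≤ Real.pi / 2) :
    0 ≤ (exp (β * I) * (rr e c x ^ (e + 1))⁻¹).re ∧ 0 < ((rr e c x ^ (e + 1))⁻¹).re := by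
  set L := log (1 - c * x ^ (e + 2)) with hL
  have h1 : (rr e c x ^ (e + 1))⁻¹ = exp (-(((e + 1) / (e + 2) : ℝ) * L)) := by
    rw [rr, ← exp_nat_mul, ← exp_neg]
    congr 1
    push_cast
    ring
  have h2 : |L.im| ≤ Real.pi / 4 := by rw [hL, log_im]; exact (one_sub (small hc hx)).2
  have h3 : (0 : ℝ) ≤ (e + 1) / (e + 2) := by positivity
  have h4 : ((e : ℝ) + 1) / (e + 2) ≤ 1 := by rw [div_le_one (by positivity)]; linarith
  generalize ((e : ℝ) + 1) / (e + 2) = κ at h1 h3 h4 hβ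
  have h5 : |κ * L.im| ≤ κ * (Real.pi / 4) := by rw [abs_mul, abs_of_nonneg h3]; gcongr
  have h6 := abs_le.1 h5
  have h7 := Real.pi_pos
  rw [h1, ← exp_add, exp_re, exp_re]
  constructor
  · refine mul_nonneg (Real.exp_pos _).le (Real.cos_nonneg_of_mem_Icc ?_)
    simp only [add_im, mul_im, ofReal_re, I_im, ofReal_im, I_re, neg_im, mul_one, zero_mul,
      add_zero, mem_Icc]
    constructor <;> linarith [le_abs_self β, neg_abs_le β]
  · refine mul_pos (Real.exp_pos _) (Real.cos_pos_of_mem_Ioo ?_)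
    simp only [mul_im, ofReal_re, ofReal_im, neg_im, zero_mul, add_zero, mem_Ioo]
    constructor <;> nlinarith

lemma mvt {G g : ℂ → ℂ} {R : ℝ} (hG : ∀ x ∈ ball (0 : ℂ) R, HasDerivAt G (g x) x) {x y : ℂ}
    (hx : x ∈ ball (0 : ℂ) R) (hy : y ∈ ball (0 : ℂ) R) (hne : x ≠ y) (η : ℂ) :
    ∃ ξ ∈ ball (0 : ℂ) R, (η * ((G x - G y) / (x - y))).re = (η * g ξ).re := by
  have h0 : x - y ≠ 0 := sub_ne_zero.2 hne
  have hm : ∀ s ∈ Icc (0 : ℝ) 1, y + (s : ℂ) * (x - y) ∈ ball (0 : ℂ) R := fun s hs => by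
    simpa using (convex_ball (0 : ℂ) R).add_smul_sub_mem hy hx hs
  have hd : ∀ s ∈ Icc (0 : ℝ) 1, HasDerivAt (fun s : ℝ => (η * (G (y + s * (x - y)) / (x - y))).re)
      (η * g (y + s * (x - y))).re s := fun s hs => by
    have h1 : HasDerivAt (fun w : ℂ => y + w * (x - y)) (x - y) s := by
      simpa using ((hasDerivAt_id (s : ℂ)).mul_const (x - y)).const_add y
    have h2 := ((((hG _ (hm s hs)).comp (s : ℂ) h1).div_const (x - y)).const_mul η).real_of_complex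
    rwa [mul_div_cancel_right₀ _ h0] at h2
  obtain ⟨s, hs, h⟩ := exists_hasDerivAt_eq_slope _ _ zero_lt_one
    (fun s hs => (hd s hs).continuousAt.continuousWithinAt) fun s hs => hd s (Ioo_subset_Icc_self hs)
  refine ⟨_, hm s (Ioo_subset_Icc_self hs), ?_⟩
  rw [h, sub_div, mul_sub, sub_re]
  simp

lemma trap {ρ t α : ℝ} {x q : ℂ} (hρ : 0 < ρ) (ht : 0 ≤ t) (hq : 0 < q.re)
    (h1 : 0 ≤ (exp ((α / 2 + Real.pi / 4 : ℝ) * I) * q).re)
    (h2 : 0 ≤ (exp ((α / 2 - Real.pi / 4 : ℝ) * I) * q).re)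
    (h3 : (x - ρ * exp (α * I)) * q = -t) (h4 : 0 ≤ x.re) : ‖x‖ ≤ ρ := by
  set A := exp ((α / 2 + Real.pi / 4 : ℝ) * I) with hA
  set B := exp ((α / 2 - Real.pi / 4 : ℝ) * I) with hB
  set E := exp (α * I) with hE
  have e1 : A * B = E := by rw [hA, hB, hE, ← exp_add]; congr 1; push_cast; ring
  have e2 : A * conj B = I := by
    rw [hA, hB, ← exp_conj, ← exp_add, map_mul, conj_ofReal, conj_I]
    refine Eq.trans ?_ exp_pi_div_two_mul_I
    congr 1
    push_cast; ring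
  have e3 : E.re ^ 2 + E.im ^ 2 = 1 := by
    rw [hE, exp_ofReal_mul_I_re, exp_ofReal_mul_I_im]; exact Real.cos_sq_add_sin_sq α
  have e4 : 0 ≤ E.re * (q.re ^ 2 - q.im ^ 2) - 2 * E.im * q.re * q.im := by
    have a1 := congrArg Complex.re e1
    have a2 := congrArg Complex.im e1
    have a3 := congrArg Complex.re e2
    have a4 := mul_nonneg h1 h2
    simp only [mul_re, mul_im, conj_re, conj_im, I_re] at a1 a2 a3 a4
    rw [← a1, ← a2]
    have : (A.re * B.re - A.im * B.im) * (q.re ^ 2 - q.im ^ 2) -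
        2 * (A.re * B.im + A.im * B.re) * q.re * q.im =
        2 * ((A.re * q.re - A.im * q.im) * (B.re * q.re - B.im * q.im)) -
          (A.re * B.re - A.im * -B.im) * (q.re ^ 2 + q.im ^ 2) := by ring
    rw [this, a3]
    linarith
  have hN : 0 < q.re ^ 2 + q.im ^ 2 := by positivity
  obtain ⟨τ, hτ, hτt⟩ : ∃ τ : ℝ, 0 ≤ τ ∧ τ * (q.re ^ 2 + q.im ^ 2) = t :=
    ⟨t / _, by positivity, div_mul_cancel₀ _ hN.ne'⟩
  have hq0 : q ≠ 0 := fun h => by rw [h] at hq; simp at hq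
  have e5 : x = ρ * E - τ * conj q := by
    apply mul_right_cancel₀ hq0
    have : conj q * q = ((q.re ^ 2 + q.im ^ 2 : ℝ) : ℂ) := by
      rw [← normSq_eq_conj_mul_self, normSq_apply]; push_cast; ring
    rw [sub_mul, mul_assoc (τ : ℂ), this, ← ofReal_mul, hτt]
    linear_combination h3
  have x1 : x.re = ρ * E.re - τ * q.re := by rw [e5]; simp
  have x2 : x.im = ρ * E.im + τ * q.im := by rw [e5]; simp
  have e6 : τ * (q.re ^ 2 + q.im ^ 2) ≤ 2 * ρ * (E.re * q.re - E.im * q.im) := by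
    apply le_of_mul_le_mul_left _ hq
    have b1 := mul_nonneg h4 hN.le
    have b2 := mul_nonneg hρ.le e4
    rw [x1] at b1
    nlinarith
  refine le_of_pow_le_pow_left₀ two_ne_zero hρ.le ?_
  rw [Complex.sq_norm, normSq_apply, x1, x2]
  have b3 := mul_le_mul_of_nonneg_left e6 hτ
  nlinarith

/-- The segment. -/
theorem exists_loc (e : ℕ) (α : ℝ) (c : ℂ) (hα : |α| ≤ Real.pi / (2 * (e + 2)))
    (hc : c * exp (α * I) ^ (e + 2) = 1) (hcc : conj c = (-1) ^ (e + 2) * c) :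
    ∃ (l ρ : ℝ) (W : Set ℂ) (x y : ℂ → ℂ), 0 < l ∧ 0 < ρ ∧ IsOpen W ∧
      (∀ t ∈ Icc (0 : ℝ) l, (t : ℂ) ∈ W) ∧ x 0 = ρ * exp (α * I) ∧ y 0 = ρ ∧
      ∀ z ∈ W, HasDerivAt x (-y z ^ (e + 1)) z ∧ HasDerivAt y (c * x z ^ (e + 1)) z ∧
        ‖x z‖ ≤ 2 ∧ ‖y z‖ ≤ 2 ∧ x (l - conj z) = -conj (x z) ∧ y (l - conj z) = conj (y z) := by
  have hpi := Real.pi_pos
  have he : (0 : ℝ) ≤ e := Nat.cast_nonneg e
  have hc1 : ‖c‖ = 1 := by
    have := congrArg norm hc
    rwa [norm_mul, norm_pow, norm_exp_ofReal_mul_I, one_pow, mul_one, norm_one] at this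
  set R := rad e (7 / 10) with hR
  set ρ := rad e (1 / 2) with hρ
  have hρ0 : 0 < ρ := rad_pos _ _
  have hρR : ρ < R := rad_lt e
  set g : ℂ → ℂ := fun x => (rr e c x ^ (e + 1))⁻¹ with hg
  have hg0 : ∀ x, g x ≠ 0 := fun x => inv_ne_zero (pow_ne_zero _ rr_ne)
  have hgd : DifferentiableOn ℂ g (ball 0 R) := fun x hx =>
    (((rr_deriv hc1 hx).differentiableAt.pow _).inv (pow_ne_zero _ rr_ne)).differentiableWithinAt
  obtain ⟨G, hG0, hG⟩ : ∃ G : ℂ → ℂ, G 0 = 0 ∧ ∀ x ∈ ball (0 : ℂ) R, HasDerivAt G (g x) x := by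
    obtain ⟨G, hG⟩ := hgd.isExactOn_ball
    exact ⟨fun x => G x - G 0, sub_self _, fun x hx => (hG x hx).sub_const _⟩
  have hmir : ∀ x ∈ ball (0 : ℂ) R, -conj x ∈ ball (0 : ℂ) R := fun x hx => by simpa using hx
  have hsym : ∀ x ∈ ball (0 : ℂ) R, G (-conj x) = -conj (G x) := by
    have hd : ∀ x ∈ ball (0 : ℂ) R, HasDerivAt (fun x => G x + conj (G (-conj x))) 0 x := by
      intro x hx
      have h1 : HasDerivAt (fun w => G (-w)) (g (-conj x) * -1) (conj x) :=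
        (hG _ (hmir x hx)).comp (conj x) (hasDerivAt_neg _)
      have h2 := h1.conj_conj
      rw [conj_conj] at h2
      refine ((hG x hx).add h2).congr_deriv ?_
      simp only [hg, rr_conj hc1 hcc hx, map_mul, map_inv₀, map_pow, conj_conj, map_neg, map_one]
      ring
    intro x hx
    have h := isOpen_ball.is_const_of_deriv_eq_zero (convex_ball (0 : ℂ) R).isPreconnected
      (fun w hw => (hd w hw).differentiableAt.differentiableWithinAt)
      (fun w hw => (hd w hw).deriv) hx (mem_ball_self (hρ0.trans hρR))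
    simp only [map_zero, neg_zero, hG0, add_zero] at h
    have h2 := congrArg conj h
    rw [map_add, conj_conj, map_zero] at h2
    linear_combination h2
  have hk : ((e : ℝ) + 1) / (e + 2) * (Real.pi / 4) + Real.pi / (2 * (e + 2)) / 2 = Real.pi / 4 := by
    field_simp; ring
  have hk0 : 0 ≤ Real.pi / (2 * ((e : ℝ) + 2)) := by positivity
  have hre : ∀ x ∈ ball (0 : ℂ) R, ∀ y ∈ ball (0 : ℂ) R, x ≠ y →
      0 < ((G x - G y) / (x - y)).re := fun x hx y hy hne => by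
    obtain ⟨ξ, h1, h2⟩ := mvt hG hx hy hne 1
    rw [one_mul, one_mul] at h2
    rw [h2]
    exact (cone hc1 h1 (β := 0) (by rw [abs_zero]; linarith)).2
  have hinj : InjOn G (ball 0 R) := fun x hx y hy h => by
    by_contra hne
    have := hre x hx y hy hne
    rw [h] at this
    simp at this
  set x0 : ℂ := ρ * exp (α * I) with hx0
  have nx0 : ‖x0‖ = ρ := by
    rw [hx0, norm_mul, norm_exp_ofReal_mul_I, norm_real, Real.norm_eq_abs, abs_of_pos hρ0, mul_one]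
  have mx0 : x0 ∈ ball (0 : ℂ) R := mem_ball_zero_iff.2 (nx0 ▸ hρR)
  set l : ℝ := 2 * (G x0).re with hl
  have hl' : (l : ℂ) = G x0 + conj (G x0) := by rw [add_conj]
  have hl0 : 0 < l := by
    have hcos : 0 < x0.re := by
      rw [hx0, re_ofReal_mul, exp_ofReal_mul_I_re]
      refine mul_pos hρ0 (Real.cos_pos_of_mem_Ioo (abs_lt.1 (hα.trans_lt ?_)))
      gcongr; linarith
    have h1 : x0 - -conj x0 = ((2 * x0.re : ℝ) : ℂ) := by rw [sub_neg_eq_add, add_conj]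
    have h2 := hre x0 mx0 _ (hmir x0 mx0) (fun h => by
      have := congrArg Complex.re h
      simp at this; linarith)
    rw [hsym x0 mx0, h1, sub_neg_eq_add, ← hl', ← ofReal_div, ofReal_re] at h2
    exact (div_pos_iff_of_pos_right (by linarith)).1 h2
  have htrap : ∀ x ∈ ball (0 : ℂ) R, ∀ t : ℝ, 0 ≤ t → G x = G x0 - t → 0 ≤ x.re → ‖x‖ ≤ ρ := by
    intro x hx t ht h h4
    by_cases hne : x = x0
    · rw [hne, nx0]
    have hb : ∀ β : ℝ, |β| ≤ |α| / 2 + Real.pi / 4 →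
        0 ≤ (exp (β * I) * ((G x - G x0) / (x - x0))).re := fun β hβ => by
      obtain ⟨ξ, h1, h2⟩ := mvt hG hx mx0 hne (exp (β * I))
      rw [h2]
      exact (cone hc1 h1 (by linarith)).1
    refine trap (α := α) hρ0 ht (hre x hx x0 mx0 hne) (hb _ (abs_le.2 ⟨?_, ?_⟩)) (hb _ (abs_le.2 ⟨?_, ?_⟩))
      ?_ h4
    any_goals linarith [le_abs_self α, neg_abs_le α]
    rw [← hx0, mul_div_cancel₀ _ (sub_ne_zero.2 hne), h]
    ring
  have hst : ∀ x ∈ ball (0 : ℂ) R, HasStrictDerivAt G (g x) x := fun x hx => by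
    have h1 : DifferentiableOn ℂ G (ball 0 R) := fun w hw =>
      (hG w hw).differentiableAt.differentiableWithinAt
    have h2 := (h1.analyticAt (isOpen_ball.mem_nhds hx)).hasStrictDerivAt
    rwa [(hG x hx).deriv] at h2
  have hop : IsOpen (G '' ball 0 R) := by
    rw [isOpen_iff_mem_nhds]
    rintro _ ⟨x, hx, rfl⟩
    rw [← (hst x hx).map_nhds_eq (hg0 x)]
    exact image_mem_map (isOpen_ball.mem_nhds hx)
  have hseg : Icc (0 : ℝ) l ⊆ {t : ℝ | G x0 - t ∈ G '' ball 0 R} := by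
    have hct : Continuous fun t : ℝ => G x0 - t := by fun_prop
    have hsub : closedBall (0 : ℂ) ρ ⊆ ball 0 R := closedBall_subset_ball hρR
    have hK : IsClosed (G '' closedBall 0 ρ) :=
      ((isCompact_closedBall 0 ρ).image_of_continuousOn fun x hx =>
        (hG x (hsub hx)).continuousAt.continuousWithinAt).isClosed
    refine IsClosed.Icc_subset_of_forall_mem_nhdsWithin ?_ ⟨x0, mx0, by simp⟩ fun t ht =>
      mem_nhdsWithin_of_mem_nhds ((hop.preimage hct).mem_nhds ht.1)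
    have : {t : ℝ | G x0 - t ∈ G '' ball 0 R} ∩ Icc 0 l =
        (fun t : ℝ => G x0 - t) ⁻¹' (G '' closedBall 0 ρ) ∩ Icc 0 l := by
      ext t
      refine ⟨fun ⟨⟨x, hx, h⟩, ht⟩ => ⟨⟨x, mem_closedBall_zero_iff.2 ?_, h⟩, ht⟩,
        fun ⟨⟨x, hx, h⟩, ht⟩ => ⟨⟨x, hsub hx, h⟩, ht⟩⟩
      rcases le_total 0 x.re with h4 | h4
      · exact htrap x hx t ht.1 h h4
      · have := htrap _ (hmir x hx) (l - t) (by linarith [ht.2]) (by
          rw [hsym x hx, h, ofReal_sub, hl', map_sub, conj_ofReal]; ring) (by simpa using h4)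
        simpa using this
    rw [this]
    exact (hK.preimage hct).inter isClosed_Icc
  set X := Function.invFunOn G (ball 0 R) with hX
  have hXG : ∀ x ∈ ball (0 : ℂ) R, X (G x) = x := fun x hx => hinj.leftInvOn_invFunOn hx
  have hx00 : X (G x0 - 0) = x0 := by rw [sub_zero, hXG x0 mx0]
  refine ⟨l, ρ, {z | G x0 - z ∈ G '' ball 0 R}, fun z => X (G x0 - z),
    fun z => rr e c (X (G x0 - z)), hl0, hρ0, hop.preimage (by fun_prop), fun t ht => hseg ht,
    hx00, ?_, ?_⟩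
  · simp only [hx00]
    have h1 : 1 - c * x0 ^ (e + 2) = ((1 / 2 : ℝ) : ℂ) := by
      rw [hx0, mul_pow, ← ofReal_pow, hρ, rad_pow e (by norm_num)]
      push_cast
      linear_combination (-1 / 2) * hc
    rw [rr, h1, ← ofReal_log (by norm_num), hρ, rad]
    push_cast
    rfl
  · rintro z ⟨x, hx, h⟩
    have h1 : X (G x0 - z) = x := by rw [← h, hXG x hx]
    have h2 : X (G x0 - (l - conj z)) = -conj x := by
      rw [← hXG _ (hmir x hx), hsym x hx, h, hl', map_sub]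
      congr 1; ring
    have h3 : HasDerivAt X (g x)⁻¹ (G x0 - z) := by
      rw [← h]
      exact ((hst x hx).to_local_left_inverse (hg0 x)
        (by filter_upwards [isOpen_ball.mem_nhds hx] with w hw using hXG w hw)).hasDerivAt
    have h4 : HasDerivAt (fun z => X (G x0 - z)) (-rr e c x ^ (e + 1)) z := by
      refine (h3.comp z ((hasDerivAt_id z).const_sub (G x0))).congr_deriv ?_
      simp [hg]
    have h5 : HasDerivAt (rr e c) (-(c * x ^ (e + 1)) / rr e c x ^ (e + 1)) (X (G x0 - z)) := by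
      rw [h1]; exact rr_deriv hc1 hx
    have h6 : HasDerivAt (fun z => rr e c (X (G x0 - z))) (c * x ^ (e + 1)) z := by
      refine (HasDerivAt.comp (h := fun z => X (G x0 - z)) z h5 h4).congr_deriv ?_
      have := @rr_ne e c x
      field_simp
    simp only [h1, h2]
    exact ⟨h4, h6, by linarith [mem_ball_zero_iff.1 hx, rad_le e], rr_norm hc1 hx, trivial,
      rr_conj hc1 hcc hx⟩

end Pool.Agent.P.MP_c8d52e_an.AD
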