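import Pool.Agent.P.MP_c8d52e_an.AD.Leap

/-! The setup for an odd number of iterates, and the cycles. -/

set_option autoImplicit false

namespace Pool.Agent.P.MP_c8d52e_an.AD

open Complex ComplexConjugate Metric Set Filter Topology Matrix

lemma one_lt (S : Setup) {z μ α β γ δ : ℂ} {t : ℝ} (hz : |z.im| ≤ S.r) (hμ : ‖μ - 1‖ ≤ S.r)
    (hM : ∀ v : ℂ × ℂ, fderiv ℂ S.Θ (conj z + S.l, conj μ)
      (α * v.1 + β * v.2, γ * v.1 + δ * v.2) = fderiv ℂ S.Γ (z, μ) v)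
    (ht : (t : ℂ) = conj α * α + conj β * γ + conj γ * β + conj δ * δ) : 1 < t := by
  have nA := (S.lipA z.re (b := (z - z.re, μ - 1)) (norm_prod_le_iff.2 ⟨by
    rwa [show z - z.re = z.im * I by linear_combination -re_add_im z, norm_mul, norm_I, mul_one,
      norm_real], hμ⟩)).2
  have nB := (S.lipB z.re (b := (conj z - z.re, conj μ - 1)) (norm_prod_le_iff.2 ⟨by
    rwa [show conj z - z.re = conj (z.im * I) by
      rw [← conj_ofReal z.re, ← map_sub]; congr 1; linear_combination -re_add_im z,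
      norm_conj, norm_mul, norm_I, mul_one, norm_real],
    by rwa [← norm_conj, map_sub, conj_conj, map_one]⟩)).2
  simp only [add_sub_cancel] at nA nB
  rw [show (z.re : ℂ) + S.l + (conj z - z.re) = conj z + S.l by ring] at nB
  have hAB : ∀ v : ℂ × ℂ, (S.Ti z.re).comp (fderiv ℂ S.Θ (conj z + S.l, conj μ))
      (α * v.1 + β * v.2, γ * v.1 + δ * v.2) = (S.Ti z.re).comp (fderiv ℂ S.Γ (z, μ)) v :=
    fun v => by simp only [ContinuousLinearMap.comp_apply, hM v]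
  have hl : ‖(S.l : ℂ)‖ ≤ 2 := by
    rw [norm_real, Real.norm_eq_abs, abs_of_pos (by linarith [S.hl1])]; exact S.hl2
  have c1 : ‖((α, γ) : ℂ × ℂ) - (1, 0)‖ ≤ 1 / 100 :=
    close_of_comp (w := (1, 0)) nA nB (by simpa using hAB (1, 0)) (by simp) (by simp) (by simp)
  have c2 : ‖((β, δ) : ℂ × ℂ) - ((S.l : ℂ), (1 : ℂ))‖ ≤ 1 / 100 :=
    close_of_comp (w := (0, 1)) nA nB (by simpa using hAB (0, 1)) (by simp) (by simp)
      (norm_prod_le_iff.mpr ⟨hl, by simp⟩)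
  have ca : ‖α - 1‖ ≤ 1 / 100 := (norm_prod_le_iff.mp c1).1
  have cg : ‖γ‖ ≤ 1 / 100 := by simpa using (norm_prod_le_iff.mp c1).2
  have cb : ‖β - S.l‖ ≤ 1 / 100 := (norm_prod_le_iff.mp c2).1
  have cd : ‖δ - 1‖ ≤ 1 / 100 := (norm_prod_le_iff.mp c2).2
  have hβ : ‖β‖ ≤ 3 := by linarith [norm_sub_norm_le β S.l]
  have e := congrArg Complex.re ht
  simp only [ofReal_re, add_re, ← normSq_eq_conj_mul_self, normSq_eq_norm_sq] at e
  have n1 : ‖conj β * γ‖ ≤ 3 * (1 / 100) := by rw [norm_mul, norm_conj]; gcongr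
  have n2 : ‖conj γ * β‖ ≤ (1 / 100) * 3 := by rw [norm_mul, norm_conj]; gcongr
  have a1 := abs_le.1 ((abs_re_le_norm _).trans n1)
  have a2 := abs_le.1 ((abs_re_le_norm _).trans n2)
  have a3 := norm_sub_norm_le 1 α
  have a4 := norm_sub_norm_le 1 δ
  rw [norm_one, norm_sub_rev] at a3 a4
  nlinarith [sq_nonneg (‖α‖ - 1), sq_nonneg (‖δ‖ - 1)]

variable {e : ℕ}

/-- the reversing map -/
noncomputable def rf (k : ℂ) (p : ℂ × ℂ) : ℂ × ℂ := (conj k * p.2, k * p.1)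

lemma rf_step {k : ℂ} (nk : ‖k‖ = 1) (hk : k ^ (e + 2) = -1) (p : ℂ × ℂ) :
    hen e (rf k (hen e p)) = rf (conj k) p := by
  ext
  · simp [hen, rf]
  · simp only [hen, rf, conj_conj, mul_pow]
    linear_combination (conj k * p.2 ^ (e + 1)) * hk - k ^ (e + 1) * p.2 ^ (e + 1) * mul_conj_one nk

lemma rf_iter {k : ℂ} (nk : ‖k‖ = 1) (hk : k ^ (e + 2) = -1) (n : ℕ) (p : ℂ × ℂ) :
    (hen e)^[2 * n + 1] (rf (conj k) ((hen e)^[2 * n + 1] p)) = rf k p := by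
  have h1 := @rf_step e k nk hk
  have h2 := @rf_step e (conj k) (by rwa [norm_conj]) (by rw [← map_pow, hk, map_neg, map_one])
  rw [conj_conj] at h2
  induction n with
  | zero => exact h2 p
  | succ n ih =>
    rw [show 2 * (n + 1) + 1 = 2 * n + 1 + 1 + 1 by ring, Function.iterate_succ_apply,
      Function.iterate_succ_apply, Function.iterate_succ_apply' _ (2 * n + 1 + 1), h2,
      Function.iterate_succ_apply' _ (2 * n + 1) p, h1, ih]

lemma sg_sg {a b : ℂ} (na : ‖a‖ = 1) (nb : ‖b‖ = 1) (p : ℂ × ℂ) :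
    sg conj a b (sg conj a b p) = p := by
  ext <;> simp only [sg, map_mul, conj_conj, ← mul_assoc, mul_conj_one na, mul_conj_one nb, one_mul]

lemma iter_ne {p : ℂ × ℂ} (hp : p ≠ 0) (n : ℕ) : (hen e)^[n] p ≠ 0 := by
  have hi : Function.Injective (hen e) := fun p q h => by
    have h1 := congrArg Prod.fst h
    have h2 := congrArg Prod.snd h
    simp only [hen] at h1 h2
    rw [h1] at h2
    exact Prod.ext (add_right_cancel h2) h1
  have h0 : (hen e)^[n] 0 = 0 := Function.iterate_fixed (by simp [hen]) n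
  exact fun h => hp (hi.iterate n (h.trans h0.symm))

lemma mult {p : ℂ × ℂ} {N : ℕ} (hN : 0 < N) (hp : (hen e)^[N] p = p)
    {Y : Matrix (Fin 2) (Fin 2) ℂ} (hY : Jc e N p = Y ^ (e + 2)) (hd : Y.det = 1) :
    ∃ a b : ℂ, (fderiv ℂ ((hen e)^[Function.minimalPeriod (hen e) p]) p).toLinearMap.charpoly.roots
      = {a, b} ∧ ‖a‖ * ‖b‖ = 1 ∧ ∃ j : ℕ, 0 < j ∧ ∀ x, x = a ∨ x = b →
        ∃ l : ℂ, l ≠ 0 ∧ l + l⁻¹ = Y.trace ∧ x ^ j = l ^ (e + 2) := by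
  set n := Function.minimalPeriod (hen e) p with hn
  have hpn : (hen e)^[n] p = p := Function.iterate_minimalPeriod
  obtain ⟨j, hj⟩ : n ∣ N := Function.IsPeriodicPt.minimalPeriod_dvd hp
  rw [(fd_iter n p).fderiv]
  obtain ⟨a, b, h1, h2⟩ := exists_eigen (Jc e n p)
  obtain ⟨l, m, h3, h4⟩ := exists_eigen Y
  have hJ : Y ^ (e + 2) = Jc e n p ^ j := by rw [← hY, hj, Jc_mul hpn]
  have e1 : a ^ j + b ^ j = l ^ (e + 2) + m ^ (e + 2) := by
    rw [← trace_pow h1 h2, ← hJ, trace_pow h3 h4]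
  have e2 : a ^ j * b ^ j = l ^ (e + 2) * m ^ (e + 2) := by
    rw [← mul_pow, h2, ← det_pow, ← hJ, det_pow, ← h4, mul_pow]
  rw [hd] at h4
  refine ⟨a, b, roots_toL h1 h2, by
    rw [← norm_mul, h2, Jc_det, norm_pow, norm_neg, norm_one, one_pow], j,
    Nat.pos_of_ne_zero (by rintro rfl; omega), fun x hx => ?_⟩
  have e3 : (x ^ j - l ^ (e + 2)) * (x ^ j - m ^ (e + 2)) = 0 := by
    rcases hx with rfl | rfl <;> linear_combination x ^ j * e1 - e2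
  rcases mul_eq_zero.1 e3 with h | h
  · exact ⟨l, left_ne_zero_of_mul_eq_one h4, by rw [← h3, eq_inv_of_mul_eq_one_right h4],
      sub_eq_zero.1 h⟩
  · exact ⟨m, right_ne_zero_of_mul_eq_one h4, by rw [← h3, eq_inv_of_mul_eq_one_left h4, add_comm],
      sub_eq_zero.1 h⟩

namespace Orb

variable (O : Orb e)

lemma nk : ‖O.k‖ = 1 := by
  have := congrArg norm O.hk
  rw [norm_pow, norm_neg, norm_one] at this
  exact (pow_eq_one_iff_of_nonneg (norm_nonneg _) (by omega)).1 this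

lemma Θ_neg (h z ν : ℂ) : h • O.Θ (-z, ν) = rf O.k (h • O.Θ (z, ν)) := by
  ext
  · simp only [Θ, rf, O.rev, Prod.smul_fst, Prod.smul_snd, smul_eq_mul]
    linear_combination (-h * rt e ν * O.u (-z)) * mul_conj_one O.nk
  · simp only [Θ, rf, O.rev, Prod.smul_fst, Prod.smul_snd, smul_eq_mul, neg_neg]
    ring

lemma Θ_per (z ν : ℂ) : O.Θ (z + (2 * (e + 2) : ℝ), ν) = O.Θ (z, ν) := by
  have ia := mul_conj_one O.na
  have ib := mul_conj_one O.nb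
  have h1 : ∀ z, O.u (z + 2) = O.b * conj O.a * O.u z ∧ O.v (z + 2) = O.a * conj O.b * O.v z := by
    intro z
    rw [show z + 2 = conj (conj z + 1) + 1 by simp; ring, O.glu, O.glv, O.glv, O.glu]
    simp [mul_assoc]
  have h2 : ∀ n : ℕ, O.u (z + 2 * n) = (O.b * conj O.a) ^ n * O.u z ∧
      O.v (z + 2 * n) = (O.a * conj O.b) ^ n * O.v z := fun n => by
    induction n with
    | zero => simp
    | succ n ih =>
      rw [show z + 2 * (n + 1 : ℕ) = z + 2 * n + 2 by push_cast; ring, (h1 _).1, (h1 _).2, ih.1, ih.2]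
      constructor <;> ring
  have h3 : (O.b * conj O.a) ^ (e + 2) = 1 := by
    rw [pow_succ, mul_pow, O.hb, ← map_pow, O.ha]; linear_combination (O.b * conj O.b) * ia + ib
  have h4 : (O.a * conj O.b) ^ (e + 2) = 1 := by
    rw [pow_succ, mul_pow, O.ha, ← map_pow, O.hb]; linear_combination (O.b * conj O.b) * ia + ib
  have h5 := h2 (e + 2)
  rw [h3, h4, one_mul, one_mul] at h5
  push_cast at h5 ⊢
  simp only [Θ, h5.1, h5.2]

lemma TM_conj (z ν : ℂ) :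
    O.TM (conj z + 1) (conj ν) = !![0, 1; 1, 0] * D2 O.a O.b * (O.TM z ν).map conj := by
  ext i k
  fin_cases i <;> fin_cases k <;>
    simp [TM, D2, O.glu, O.glv, rt_conj, mul_pow, O.ha, O.hb, Matrix.mul_apply, Fin.sum_univ_two] <;>
    ring

/-- the rescaled iterate in the chart -/
noncomputable def Γ (h : ℝ) (m : ℕ) (q : ℂ × ℂ) : ℂ × ℂ :=
  toL !![0, 1; 1, 0] ((h : ℂ)⁻¹ • (hen e)^[m] ((h : ℂ) • O.Θ q))

lemma fd_Γ {h : ℝ} (hh : 0 < h) (m : ℕ) {q : ℂ × ℂ} (hq : |q.1.im| < O.η)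
    (hν : ‖q.2 - 1‖ ≤ 1 / 2) :
    HasFDerivAt (O.Γ h m) (toL (!![0, 1; 1, 0] * Jc e m ((h : ℂ) • O.Θ q) * O.TM q.1 q.2)) q := by
  have h2 := (toL !![0, 1; 1, 0]).hasFDerivAt.comp q
    (((fd_iter (e := e) m _).comp q ((O.fd_Θ hq hν).const_smul (h : ℂ))).const_smul (h : ℂ)⁻¹)
  refine HasFDerivAt.congr_fderiv h2 ?_
  rw [toL_mul, toL_mul, ContinuousLinearMap.comp_smul (toL (Jc _ _ _)), smul_smul,
    inv_mul_cancel₀ (ofReal_ne_zero.mpr hh.ne'), one_smul, ContinuousLinearMap.comp_assoc]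
  rfl

lemma Γ_eq_iff {h : ℝ} (hh : 0 < h) (m : ℕ) (z μ ν : ℂ) :
    O.Γ h m (z, μ) = O.Θ (conj z + 1, conj ν) ↔
      (hen e)^[m] ((h : ℂ) • O.Θ (z, μ)) = sg conj O.a O.b ((h : ℂ) • O.Θ (z, ν)) := by
  have h0 : (h : ℂ) ≠ 0 := ofReal_ne_zero.mpr hh.ne'
  have h1 : sg conj O.a O.b ((h : ℂ) • O.Θ (z, ν)) =
      (h : ℂ) • ((O.Θ (conj z + 1, conj ν)).2, (O.Θ (conj z + 1, conj ν)).1) := by
    ext <;> simp [sg, Θ, O.glu, O.glv, rt_conj] <;> ring
  rw [h1, ← inv_smul_eq_iff₀ h0, Γ]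
  generalize (h : ℂ)⁻¹ • (hen e)^[m] ((h : ℂ) • O.Θ (z, μ)) = x
  generalize O.Θ (conj z + 1, conj ν) = y
  simp [Prod.ext_iff, and_comm]

lemma exists_M (he : 1 ≤ e) {h : ℝ} (hh : 0 < h) (m : ℕ) {z μ : ℂ} (hz : |z.im| < O.η)
    (hμ : ‖μ - 1‖ ≤ 1 / 2) :
    ∃ α β γ δ : ℂ,
      (∀ v : ℂ × ℂ, fderiv ℂ O.Θ (conj z + 1, conj μ) (α * v.1 + β * v.2, γ * v.1 + δ * v.2) =
        fderiv ℂ (O.Γ h m) (z, μ) v) ∧ ‖α * δ - β * γ‖ = 1 ∧
      (NM O.a O.b (Jc e m ((h : ℂ) • O.Θ (z, μ)))).trace =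
        conj α * α + conj β * γ + conj γ * β + conj δ * δ := by
  set J := Jc e m ((h : ℂ) • O.Θ (z, μ)) with hJ
  set A := O.TM z μ with hA
  have hdet : A.det ≠ 0 := O.det_TM he hz (re_pos hμ).2.1
  have x1 : A * A⁻¹ = 1 := Matrix.mul_nonsing_inv A (Ne.isUnit hdet)
  have x2 : A.map conj * (A⁻¹).map conj = 1 := by
    rw [← Matrix.map_mul, x1]; simp
  have s3 : D2 O.a O.b * D2 (conj O.a) (conj O.b) = 1 := by
    rw [D2_mul, mul_conj_one O.na, mul_conj_one O.nb, D2_one]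
  set M := (A⁻¹).map conj * D2 (conj O.a) (conj O.b) * J * A with hM
  refine ⟨M 0 0, M 0 1, M 1 0, M 1 1, fun v => ?_, ?_, ?_⟩
  · rw [(O.fd_Θ (q := (conj z + 1, conj μ)) (by simpa using hz)
        (by rwa [← norm_conj, map_sub, conj_conj, map_one])).fderiv,
      (O.fd_Γ hh _ (q := (z, μ)) hz hμ).fderiv, ← toL_apply M,
      ← ContinuousLinearMap.comp_apply, ← toL_mul, O.TM_conj, ← hA, ← hJ, hM]
    congr 2
    simp only [Matrix.mul_assoc]
    rw [← Matrix.mul_assoc (A.map conj), x2, Matrix.one_mul, ← Matrix.mul_assoc (D2 O.a O.b), s3,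
      Matrix.one_mul]
  · have d1 : ((A⁻¹).map conj).det = conj (A⁻¹).det := (RingHom.map_det conj A⁻¹).symm
    have d3 : ‖(A⁻¹).det‖ * ‖A.det‖ = 1 := by
      rw [← norm_mul, ← det_mul, Matrix.nonsing_inv_mul A (Ne.isUnit hdet), det_one, norm_one]
    rw [← det_fin_two, hM, det_mul, det_mul, det_mul, hJ, Jc_det, d1, D2_det]
    simp only [norm_mul, norm_conj, norm_pow, norm_neg, norm_one, one_pow, mul_one, O.na, O.nb, d3]
  · have e : (M.map conj * M).trace = conj (M 0 0) * M 0 0 + conj (M 0 1) * M 1 0 +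
        conj (M 1 0) * M 0 1 + conj (M 1 1) * M 1 1 := by
      simp only [Matrix.trace_fin_two, Matrix.mul_apply, Fin.sum_univ_two, Matrix.map_apply]
      ring
    rw [← e, hM]
    simp only [Matrix.map_mul, map_conj_conj, D2_map, conj_conj, Matrix.mul_assoc]
    rw [← Matrix.mul_assoc (A.map conj), x2, Matrix.one_mul, Matrix.trace_mul_comm A⁻¹]
    simp only [Matrix.mul_assoc, x1, Matrix.mul_one, NM]

/-- the data of the reduction -/
noncomputable def setup (he : 1 ≤ e) {h r : ℝ} (k : ℕ) (hh : 0 < h) (hr : 0 < r)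
    (h1 : 32 * r ≤ O.η) (h2 : (8 * O.bd * O.M + 1) / O.η ^ 2 * r ≤ 1 / 128000)
    (h3 : ∀ z ν : ℂ, |z.im| ≤ O.η / 4 → ‖ν - 1‖ ≤ O.η / 8 →
      2 * O.bd * ‖O.Γ h (2 * k + 1) (z, ν) - O.Θ (z + ν, ν)‖ ≤ r / 2000) : Setup where
  l := 1
  r := r
  T := 2 * (e + 2)
  Γ := O.Γ h (2 * k + 1)
  Θ := O.Θ
  Ti := fun s => toL (O.TiM (s + 1))
  hl1 := le_rfl
  hl2 := one_le_two
  hr := hr
  hT := by positivity
  hTi := fun s x y h => by
    have h1 : O.TM (s + 1) 1 * O.TiM (s + 1) = 1 :=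
      mul_eq_one_comm.mp (O.TiM_mul he (by simpa using O.η0))
    have h2 := congrArg (toL (O.TM (s + 1) 1)) h
    rwa [← ContinuousLinearMap.comp_apply, ← ContinuousLinearMap.comp_apply, ← toL_mul, h1,
      toL_one] at h2
  hΓ := fun q hq hν => (O.fd_Γ hh _ (by linarith) (by linarith [O.η1])).differentiableAt
  hΘ := fun q hq hν => (O.fd_Θ (by linarith) (by linarith [O.η1])).differentiableAt
  hA := fun s q hq => by
    have a1 := norm_fst_le q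
    have a2 := norm_snd_le q
    have b1 := h3 (s + q.1) (1 + q.2)
      (by simp only [add_im, ofReal_im, zero_add]; linarith [abs_im_le_norm q.1])
      (by rw [add_sub_cancel_left]; linarith)
    have hn : ‖((q.1 + q.2, q.2) : ℂ × ℂ)‖ ≤ 8 * r :=
      norm_prod_le_iff.mpr ⟨(norm_add_le _ _).trans (by linarith), by simp only; linarith⟩
    have b2 := O.B_bound he s (q := (q.1 + q.2, q.2)) (by linarith)
    have b3 := norm_toL_le (O.TiM_le (z := s + 1) (by simpa using O.η0))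
      (O.Γ h (2 * k + 1) (s + q.1, 1 + q.2) - O.Θ (s + q.1 + (1 + q.2), 1 + q.2))
    rw [show (s : ℂ) + q.1 + (1 + q.2) = s + 1 + (q.1 + q.2) by ring] at b1 b3
    rw [ofReal_one, one_mul, show toL (O.TiM (s + 1))
        (O.Γ h (2 * k + 1) (s + q.1, 1 + q.2) - O.Θ (s + 1, 1)) - (q.1 + q.2, q.2) =
        toL (O.TiM (s + 1)) (O.Γ h (2 * k + 1) (s + q.1, 1 + q.2) -
          O.Θ (s + 1 + (q.1 + q.2), 1 + q.2)) +
        (toL (O.TiM (s + 1)) (O.Θ (s + 1 + (q.1 + q.2), 1 + q.2) - O.Θ (s + 1, 1)) -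
          (q.1 + q.2, q.2)) by simp only [map_sub]; abel]
    refine (norm_add_le _ _).trans ?_
    have b0 : 0 ≤ (8 * O.bd * O.M + 1) / O.η ^ 2 := by
      have := O.bd_pos; have := O.hM; positivity
    have b4 := mul_le_mul_of_nonneg_left (pow_le_pow_left₀ (norm_nonneg _) hn 2) b0
    nlinarith
  hB := fun s q hq => by
    have b2 := O.B_bound he s (q := q) (by linarith)
    have b0 : 0 ≤ (8 * O.bd * O.M + 1) / O.η ^ 2 := by
      have := O.bd_pos; have := O.hM; positivity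
    have b4 := mul_le_mul_of_nonneg_left (pow_le_pow_left₀ (norm_nonneg _) hq.le 2) b0
    rw [ofReal_one]
    nlinarith
  perΓ := fun z μ => by simp only [Γ, O.Θ_per]
  perΘ := O.Θ_per
  rev := fun z a b H => by
    rw [ofReal_one] at H ⊢
    rw [← map_neg conj z, O.Γ_eq_iff hh, Θ_neg, Θ_neg]
    rw [O.Γ_eq_iff hh] at H
    have e1 : ∀ x, rf O.k (sg conj O.a O.b x) = sg conj O.b O.a (rf (conj O.k) x) := fun x => by
      ext <;> simp [rf, sg] <;> ring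
    rw [← sg_sg O.na O.nb ((h : ℂ) • O.Θ (z, b)), ← H, e1, (sg_odd O.hb O.ha k _).1,
      rf_iter O.nk O.hk]

include O in
lemma cycles (he : 1 ≤ e) (ε : ℝ) (hε : 0 < ε) : ∃ (N : ℕ) (P : ℝ → Prop), 0 < N ∧
    (∃ t, P t ∧ 2 < t) ∧ (∃ t, P t ∧ t < 2) ∧ ∀ t, P t → 1 < t ∧
      (∀ (l : ℂ) (n : ℕ), 0 < n → l ^ n = 1 → l + l⁻¹ ≠ t) ∧
      ∃ (p : ℂ × ℂ) (Y : Matrix (Fin 2) (Fin 2) ℂ), (hen e)^[N] p = p ∧ p ≠ 0 ∧
        (∀ n, ‖(hen e)^[n] p‖ < ε) ∧ Jc e N p = Y ^ (e + 2) ∧ Y.det = 1 ∧ Y.trace = t := by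
  have hM := O.hM
  have η0 := O.η0
  have η1 := O.η1
  have hb := O.bd_pos
  obtain ⟨C, hC, H⟩ := O.approx he
  obtain ⟨r, hr, r1, r2⟩ : ∃ r : ℝ, 0 < r ∧ 32 * r ≤ O.η ∧
      (8 * O.bd * O.M + 1) / O.η ^ 2 * r ≤ 1 / 128000 := by
    have hK : 0 < (8 * O.bd * O.M + 1) / O.η ^ 2 := by positivity
    generalize (8 * O.bd * O.M + 1) / O.η ^ 2 = K at hK
    have := min_le_left (O.η / 32) (1 / 128000 / K)
    refine ⟨min (O.η / 32) (1 / 128000 / K), by positivity, by linarith, ?_⟩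
    rw [mul_comm, ← le_div_iff₀ hK]
    exact min_le_right _ _
  have ht : Tendsto (fun k : ℕ => 1 / ((2 * k + 1 : ℕ) : ℝ)) atTop (𝓝 0) :=
    tendsto_const_nhds.div_atTop (tendsto_natCast_atTop_atTop.comp
      (tendsto_atTop_mono (fun k => by simp only [id]; omega) tendsto_id))
  have hev : ∀ c x : ℝ, 0 < x → ∀ᶠ k : ℕ in atTop, c * (1 / ((2 * k + 1 : ℕ) : ℝ)) < x := by
    intro c x hx
    have := ht.const_mul c
    rw [mul_zero] at this
    exact this.eventually (gt_mem_nhds hx)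
  obtain ⟨k, h1, h2, h3⟩ := ((hev C 1 one_pos).and ((hev (2 * O.bd * C) (r / 2000)
    (by positivity)).and (hev 2 ((ε / (2 * O.M + 1)) ^ e) (by positivity)))).exists
  set δ := 1 / ((2 * k + 1 : ℕ) : ℝ) with hδd
  have hδ : 0 < δ := by positivity
  have hk : ((2 * k + 1 : ℕ) : ℝ) * δ = 1 := by rw [hδd]; field_simp
  have hkc : ((2 * k + 1 : ℕ) : ℂ) * δ = 1 := by exact_mod_cast hk
  obtain ⟨h, hh, hhe⟩ : ∃ h : ℝ, 0 < h ∧ h ^ e = 2 * δ :=
    ⟨(2 * δ) ^ ((e : ℝ)⁻¹), by positivity, Real.rpow_inv_natCast_pow (by positivity) (by omega)⟩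
  have h4 : h * (2 * O.M + 1) < ε := by
    rw [← lt_div_iff₀ (by positivity)]
    exact lt_of_pow_lt_pow_left₀ e (by positivity) (hhe ▸ h3)
  let S := O.setup he k hh hr r1 r2 fun z ν hz hν => by
    have a1 := (H δ h hδ h1.le hh hhe z ν hz hν (2 * k + 1) hk.le).1
    have w1 : O.w (2 * k + 1) = O.v := by simp [w]
    have w2 : O.w (2 * k + 1 + 1) = O.u := by simp [w, Nat.even_add_one]
    rw [hkc, mul_one, w1, w2] at a1
    have a2 : ‖O.Γ h (2 * k + 1) (z, ν) - O.Θ (z + ν, ν)‖ ≤ C * δ := by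
      rw [Γ]
      generalize (h : ℂ)⁻¹ • (hen e)^[2 * k + 1] ((h : ℂ) • O.Θ (z, ν)) = x at a1 ⊢
      have a3 := norm_prod_le_iff.1 a1
      exact norm_prod_le_iff.2 ⟨by simpa [Θ] using a3.2, by simpa [Θ] using a3.1⟩
    nlinarith
  let t : ℂ × ℂ → ℝ := fun q => (NM O.a O.b (Jc e (2 * k + 1) ((h : ℂ) • O.Θ q))).trace.re
  have ex : ∀ z μ : ℂ, |z.im| ≤ r → ‖μ - 1‖ ≤ r →
      (NM O.a O.b (Jc e (2 * k + 1) ((h : ℂ) • O.Θ (z, μ)))).trace = t (z, μ) ∧ ∃ α β γ δ : ℂ,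
      (∀ v : ℂ × ℂ, fderiv ℂ S.Θ (conj z + S.l, conj μ) (α * v.1 + β * v.2, γ * v.1 + δ * v.2) =
        fderiv ℂ S.Γ (z, μ) v) ∧ ‖α * δ - β * γ‖ = 1 ∧
      (t (z, μ) : ℂ) = conj α * α + conj β * γ + conj γ * β + conj δ * δ := fun z μ hz hμ => by
    obtain ⟨α, β, γ, δ', a1, a2, a3⟩ := O.exists_M he hh (2 * k + 1) (z := z) (μ := μ)
      (by linarith) (by linarith)
    have a4 : (NM O.a O.b (Jc e (2 * k + 1) ((h : ℂ) • O.Θ (z, μ)))).trace = t (z, μ) := by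
      symm
      rw [← conj_eq_iff_re, a3]
      simp only [map_add, map_mul, conj_conj]
      ring
    exact ⟨a4, α, β, γ, δ', a1, a2, a4.symm.trans a3⟩
  have fin : ∀ z μ : ℂ, |z.im| ≤ r → ‖μ - 1‖ ≤ r → S.Γ (z, μ) = S.Θ (conj z + S.l, conj μ) →
      1 < t (z, μ) ∧ (∀ (l : ℂ) (n : ℕ), 0 < n → l ^ n = 1 → l + l⁻¹ ≠ t (z, μ)) ∧
      ∃ (p : ℂ × ℂ) (Y : Matrix (Fin 2) (Fin 2) ℂ), (hen e)^[2 * (2 * k + 1) * (e + 2)] p = p ∧
        p ≠ 0 ∧ (∀ n, ‖(hen e)^[n] p‖ < ε) ∧ Jc e (2 * (2 * k + 1) * (e + 2)) p = Y ^ (e + 2) ∧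
        Y.det = 1 ∧ Y.trace = t (z, μ) := fun z μ hz hμ hq => by
    have h' := (O.Γ_eq_iff hh _ z μ μ).mp hq
    obtain ⟨a1, α, β, γ, δ', a2, -, a3⟩ := ex z μ hz hμ
    obtain ⟨b1, b2, b3, b4⟩ := twisted O.ha O.hb O.na O.nb h'
    have ia := mul_conj_one O.na
    have ib := mul_conj_one O.nb
    have st : O.b * conj O.a * (O.a * conj O.b) = 1 := by
      linear_combination (O.b * conj O.b) * ia + ib
    have c1 := one_lt S hz hμ a2 a3
    refine ⟨c1, fun l n hn hl hl2 => c1.not_ge (root_trace he hn hl b1 O.re O.ev hl2 ?_), _, _, b2,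
      ?_, fun n => ?_, b4, ?_, a1⟩
    · rw [← a1, ← eq_inv_of_mul_eq_one_right st]
      exact trace_cong he (by positivity) b2 b1 st b3
    · refine smul_ne_zero (ofReal_ne_zero.mpr hh.ne') fun h0 => O.E_ne ?_
      rw [← O.E_const (z := z) (by linarith),
        (mul_eq_zero.mp (congrArg Prod.fst h0)).resolve_left (rt_ne μ),
        (mul_eq_zero.mp (congrArg Prod.snd h0)).resolve_left (rt_ne μ), sub_self]
    · refine (orbit_le O.ha O.hb O.na O.nb (by positivity) h' (fun n hn => (H δ h hδ h1.le hh hhe z μ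
        (by linarith) (by linarith) n ?_).2) n).trans_lt h4
      rw [← hk]; gcongr
    · have d2 : ∀ A : Matrix (Fin 2) (Fin 2) ℂ, (A.map conj).det = conj A.det :=
        fun A => (RingHom.map_det conj A).symm
      rw [NM, det_mul, det_mul, det_mul, d2, D2_det, D2_det, Jc_det,
        (odd_two_mul_add_one k).neg_one_pow, map_neg, map_one]
      linear_combination st
  obtain ⟨⟨z, μ, a1, a2, a3, a4⟩, z', μ', b1, b2, b3, -, b4⟩ := S.core t fun z μ hz hμ hq =>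
    ⟨fun h2 => (fin z μ hz hμ hq).2.1 1 1 one_pos (one_pow 1) (by rw [h2]; norm_num),
      (ex z μ hz hμ).2⟩
  exact ⟨_, _, by positivity, ⟨_, fin z μ a1 a2 a3, a4⟩, ⟨_, fin z' μ' b1 b2 b3, b4⟩,
    fun _ h => h⟩

end Orb

theorem small_cycles (he : 1 ≤ e) (U : Set (ℂ × ℂ)) (hU : U ∈ 𝓝 (0 : ℂ × ℂ)) :
    (∃ p ∈ Function.periodicPts (hen e), (∀ k : ℕ, (hen e)^[k] p ∈ U \ {0}) ∧ ∃ a b : ℂ,
      (fderiv ℂ ((hen e)^[Function.minimalPeriod (hen e) p]) p).toLinearMap.charpoly.roots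
        = {a, b} ∧ ‖a‖ < 1 ∧ 1 < ‖b‖) ∧
    (∃ p ∈ Function.periodicPts (hen e), (∀ k : ℕ, (hen e)^[k] p ∈ U \ {0}) ∧ ∃ a b : ℂ,
      (fderiv ℂ ((hen e)^[Function.minimalPeriod (hen e) p]) p).toLinearMap.charpoly.roots
        = {a, b} ∧ ‖a‖ = 1 ∧ ‖b‖ = 1 ∧ ∀ n : ℕ, 0 < n → a ^ n ≠ 1 ∧ b ^ n ≠ 1) := by
  obtain ⟨O⟩ := nonempty_orb he
  obtain ⟨ε, hε, hsub⟩ := Metric.mem_nhds_iff.mp hU
  obtain ⟨N, P, hN, ⟨t, a1, a2⟩, ⟨t', b1, b2⟩, H⟩ := O.cycles he ε hε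
  constructor
  · obtain ⟨-, -, p, Y, c1, c2, c3, c4, c5, c6⟩ := H t a1
    obtain ⟨a, b, d1, d2, j, hj, d3⟩ := mult hN c1 c4 c5
    refine ⟨p, Function.mk_mem_periodicPts hN c1,
      fun k => ⟨hsub (mem_ball_zero_iff.mpr (c3 k)), iter_ne c2 k⟩, ?_⟩
    obtain ⟨l, l0, l1, l2⟩ := d3 a (Or.inl rfl)
    have hne : ‖a‖ ≠ 1 := fun h => by
      have := congrArg norm l2
      rw [norm_pow, norm_pow, h, one_pow] at this
      exact (norm_eq_one_iff_of (l1.trans c6) (mul_inv_cancel₀ l0)).1 a2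
        ((pow_eq_one_iff_of_nonneg (norm_nonneg _) (by omega)).1 this.symm)
    have := norm_nonneg a
    have := norm_nonneg b
    rcases lt_or_gt_of_ne hne with h | h
    · exact ⟨a, b, d1, h, by nlinarith⟩
    · exact ⟨b, a, d1.trans (Multiset.pair_comm _ _), by nlinarith, h⟩
  · obtain ⟨c0, cr, p, Y, c1, c2, c3, c4, c5, c6⟩ := H t' b1
    obtain ⟨a, b, d1, -, j, hj, d3⟩ := mult hN c1 c4 c5
    have key : ∀ x, x = a ∨ x = b → ‖x‖ = 1 ∧ ∀ n : ℕ, 0 < n → x ^ n ≠ 1 := fun x hx => by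
      obtain ⟨l, l0, l1, l2⟩ := d3 x hx
      refine ⟨?_, fun n hn h => cr l ((e + 2) * n) (by positivity)
        (by rw [pow_mul, ← l2, ← pow_mul, mul_comm, pow_mul, h, one_pow]) (l1.trans c6)⟩
      have := congrArg norm l2
      rw [norm_pow, norm_pow, (norm_eq_one_iff_of (l1.trans c6) (mul_inv_cancel₀ l0)).2
        (by linarith) b2.le, one_pow] at this
      exact (pow_eq_one_iff_of_nonneg (norm_nonneg _) hj.ne').1 this
    exact ⟨p, Function.mk_mem_periodicPts hN c1,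
      fun k => ⟨hsub (mem_ball_zero_iff.mpr (c3 k)), iter_ne c2 k⟩, a, b, d1,
      (key a (Or.inl rfl)).1, (key b (Or.inr rfl)).1,
      fun n hn => ⟨(key a (Or.inl rfl)).2 n hn, (key b (Or.inr rfl)).2 n hn⟩⟩

end Pool.Agent.P.MP_c8d52e_an.AD
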